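import Pool.Agent.Q226.SC.ZCMain

set_option autoImplicit false

/-!
# Correspondences between surfaces and Bloch's conjecture
-/

namespace Pool.Agent.Q226.SC

variable {G : Geo}

/-- The Chow group of zero-cycles. -/
abbrev Cycles.CH (C : Cycles G) (X : G.Var) : Type := (C.Pt X →₀ ℤ) ⧸ C.Rat X

/-- The class of a zero-cycle. -/
noncomputable def Cycles.cl (C : Cycles G) {X : G.Var} (z : C.Pt X →₀ ℤ) : C.CH X := QuotientAddGroup.mk z

/-- Correspondences between smooth projective complex varieties. -/
structure Corrs (C : Cycles G) where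
  /-- the group `CH^(dim T)(S × T)` of correspondences from `S` to `T`; for surfaces `CH²(S × T)` -/
  Cor : G.Var → G.Var → Type
  /-- the action `Z_* : CH₀(S) → CH₀(T)` -/
  act : ∀ {S T : G.Var}, Cor S T → (C.CH S →+ C.CH T)
  /-- composition, first `Z`, then `W` -/
  comp : ∀ {S T U : G.Var}, Cor S T → Cor T U → Cor S U
  /-- the transpose of a correspondence (if `S` and `T` have the same dimension) -/
  tr : ∀ {S T : G.Var}, Cor S T → Cor T S
  /-- `[Z]^* = 0` on holomorphic two-forms, `H^(2,0)(T) → H^(2,0)(S)` -/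
  Hol : ∀ {S T : G.Var}, Cor S T → Prop
  /-- the correspondence given by a family of effective zero-cycles on `T` over `S` -/
  fam : ∀ {S T : G.Var}, C.Fam S T → Cor S T

variable {C : Cycles G} (R : Corrs C)

/-- `Z_* = 0` on the kernel of the Albanese map of `S`. -/
def Corrs.Van {S T : G.Var} (Z : R.Cor S T) : Prop :=
  ∀ z : C.Pt S →₀ ℤ, C.InKernel S z → R.act Z (C.cl z) = 0

/-- Bloch's conjecture for correspondences on the surface `X`: for all `Γ ∈ CH²(X × X)`, `[Γ]` is
zero on holomorphic two-forms if and only if `Γ_*` is zero on the kernel of the Albanese map. -/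
def Corrs.BlochFor (X : G.Var) : Prop := ∀ Γ : R.Cor X X, R.Hol Γ ↔ R.Van Γ

/-- The (open half of the) conjecture for correspondences from `S` to `T`. -/
def Corrs.Pair (S T : G.Var) : Prop := ∀ Z : R.Cor S T, R.Hol Z → R.Van Z

/-- Elementary facts on correspondences. -/
structure CorBasic : Prop where
  /-- composition -/
  act_comp : ∀ {S T U : G.Var} (Z : R.Cor S T) (W : R.Cor T U) (x : C.CH S),
    R.act (R.comp Z W) x = R.act W (R.act Z x)
  /-- composition -/
  hol_left : ∀ {S T U : G.Var} (Z : R.Cor S T) (W : R.Cor T U), R.Hol Z → R.Hol (R.comp Z W)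
  /-- composition -/
  hol_right : ∀ {S T U : G.Var} (Z : R.Cor S T) (W : R.Cor T U), R.Hol W → R.Hol (R.comp Z W)
  /-- transposition, for surfaces: the two actions on holomorphic two-forms are dual up to
  conjugation -/
  hol_tr : ∀ {S T : G.Var}, G.dim S = 2 → G.dim T = 2 → ∀ Z : R.Cor S T, R.Hol Z → R.Hol (R.tr Z)
  /-- families act by `[s] ↦ [F(s)]` -/
  act_fam : ∀ {S T : G.Var} (F : C.Fam S T) (z : C.Pt S →₀ ℤ),
    R.act (R.fam F) (C.cl z) = C.cl (C.push F z)
  /-- correspondences respect the kernels of the Albanese maps -/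
  ker : ∀ {S T : G.Var} (Z : R.Cor S T) (z : C.Pt S →₀ ℤ), C.InKernel S z →
    ∃ z' : C.Pt T →₀ ℤ, C.InKernel T z' ∧ R.act Z (C.cl z) = C.cl z'

/-- Theorems on correspondences between complex varieties. -/
structure CorFacts : Prop where
  /-- Roitman: the kernel of the Albanese map is torsion-free -/
  roitman : ∀ (X : G.Var) (z : C.Pt X →₀ ℤ) (n : ℤ), n ≠ 0 → C.InKernel X z →
    n • C.cl z = 0 → C.cl z = 0
  /-- Mumford, Bloch and Srinivas: if `Z_*` is zero on the kernel of the Albanese map, then `[Z]` is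
  zero on holomorphic two-forms -/
  mumford : ∀ {S T : G.Var} (Z : R.Cor S T), R.Van Z → R.Hol Z
  /-- Bloch and Srinivas, Kahn, Murre and Pedrini, for surfaces: `Z_*` is zero on the kernel of the
  Albanese map of `S` if and only if `Z` is zero as a morphism `t₂(S) → t₂(T)` of transcendental
  motives, and these are self-dual -/
  dual : ∀ {S T : G.Var}, G.dim S = 2 → G.dim T = 2 → ∀ Z : R.Cor S T, R.Van (R.tr Z) → R.Van Z

/-- Let `S` and `T` be simply connected surfaces; a general complete intersection surface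
`X ⊂ S × T` is simply connected, and the two projections `p : X → S`, `r : X → T` have positive
degrees `d, e`, so that `p_* p^* = d` and `r_* r^* = e`. -/
def ProductSurfaces : Prop := ∀ S T : G.Var, G.dim S = 2 → G.dim T = 2 → G.SC S → G.SC T →
  ∃ (X : G.Var) (p : R.Cor X S) (r : R.Cor X T) (d e : ℤ), G.dim X = 2 ∧ G.SC X ∧ d ≠ 0 ∧ e ≠ 0 ∧
    (∀ x : C.CH S, R.act p (R.act (R.tr p) x) = d • x) ∧
    ∀ x : C.CH T, R.act r (R.act (R.tr r) x) = e • x

/-- The well-known facts. -/
structure BlochFacts : Prop where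
  zero : Facts C
  basic : CorBasic R
  thms : CorFacts R
  products : ProductSurfaces R

end Pool.Agent.Q226.SC
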