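import Pool.Agent.Q226.SC.Bloch

set_option autoImplicit false

/-!
# Bloch's conjecture for correspondences reduces to simply connected surfaces
-/

namespace Pool.Agent.Q226.SC

variable {G : Geo} {C : Cycles G} {R : Corrs C}

/-- Step A: from single simply connected surfaces to pairs. -/
theorem pair_of_single (F : BlochFacts R) (h : ∀ X : G.Var, G.dim X = 2 → G.SC X → R.Pair X X)
    (S T : G.Var) (hS : G.dim S = 2) (hT : G.dim T = 2) (hSs : G.SC S) (hTs : G.SC T) :
    R.Pair S T := by
  intro Z hZ z hz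
  obtain ⟨X, p, r, d, e, hX, hXs, hd, he, hp, hr⟩ := F.products S T hS hT hSs hTs
  have h1 : R.Van (R.comp (R.comp p Z) (R.tr r)) :=
    h X hX hXs _ (F.basic.hol_left _ _ (F.basic.hol_right _ _ hZ))
  obtain ⟨y, hy, hyz⟩ := F.basic.ker (R.tr p) z hz
  have h2 := h1 y hy
  rw [← hyz, F.basic.act_comp, F.basic.act_comp, hp, map_zsmul, map_zsmul] at h2
  have h3 := congrArg (R.act r) h2
  rw [map_zsmul, hr, map_zero, smul_smul] at h3
  obtain ⟨w, hw, hwz⟩ := F.basic.ker Z z hz
  rw [hwz] at h3 ⊢
  exact F.thms.roitman T w (d * e) (mul_ne_zero hd he) hw h3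

/-- Reduction of the source to a simply connected surface. -/
theorem pair_source (F : BlochFacts R) (S T : G.Var) (hS : G.dim S = 2)
    (h : ∀ S' : G.Var, G.dim S' = 2 → G.SC S' → R.Pair S' T) : R.Pair S T := by
  intro Z hZ z hz
  obtain ⟨S', E, hS', hs, s, s', hz'⟩ := (inKernel_iff F.zero S (by omega) z).1 hz
  have h1 : R.Van (R.comp (R.fam E) Z) := h S' hS' hs _ (F.basic.hol_right _ _ hZ)
  have h2 : C.InKernel S' (Finsupp.single s 1 - Finsupp.single s' 1) := by
    obtain ⟨I, -⟩ := F.zero.basic.one S'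
    refine ⟨?_, ?_⟩
    · rw [degree_sub, degree_single, degree_single, sub_self]
    · rw [albSum_sub, albSum_single, albSum_single, one_smul, one_smul,
        (F.zero.basic.const I (F.zero.basic.reg S' hs) s s').1, sub_self]
  have h3 := h1 _ h2
  rw [F.basic.act_comp, F.basic.act_fam, push_sub, push_single, push_single, ← hz'] at h3
  exact h3

/-- **Theorem.** Bloch's conjecture for correspondences between all surfaces follows from the case
of simply connected surfaces. -/
theorem pair_all (F : BlochFacts R) (h : ∀ X : G.Var, G.dim X = 2 → G.SC X → R.Pair X X)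
    (S T : G.Var) (hS : G.dim S = 2) (hT : G.dim T = 2) : R.Pair S T := by
  refine pair_source F S T hS fun S' hS' hs' Z hZ => F.thms.dual hS' hT Z ?_
  exact pair_source F T S' hT (fun T' hT' ht' => pair_of_single F h T' S' hT' hS' ht' hs') _
    (F.basic.hol_tr hS' hT Z hZ)

/-- **Theorem.** Q1 for simply connected surfaces, for all surfaces, and for correspondences between
two different surfaces are equivalent. -/
theorem bloch_iff (F : BlochFacts R) :
    ((∀ X : G.Var, G.dim X = 2 → R.BlochFor X) ↔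
      ∀ X : G.Var, G.dim X = 2 → G.SC X → R.BlochFor X) ∧
    ((∀ X : G.Var, G.dim X = 2 → R.BlochFor X) ↔
      ∀ S T : G.Var, G.dim S = 2 → G.dim T = 2 → ∀ Z : R.Cor S T, R.Hol Z ↔ R.Van Z) := by
  have key : (∀ X : G.Var, G.dim X = 2 → G.SC X → R.BlochFor X) →
      ∀ S T : G.Var, G.dim S = 2 → G.dim T = 2 → ∀ Z : R.Cor S T, R.Hol Z ↔ R.Van Z :=
    fun h S T hS hT Z => ⟨pair_all F (fun X hX hs Γ => (h X hX hs Γ).1) S T hS hT Z,
      F.thms.mumford Z⟩
  refine ⟨⟨fun h X hX _ => h X hX, fun h X hX => key h X X hX hX⟩,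
    ⟨fun h => key fun X hX _ => h X hX, fun h X hX => h X X hX hX⟩⟩

end Pool.Agent.Q226.SC
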