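import Mathlib

set_option autoImplicit false

/-!
# Varieties, first cohomology and double fibres of Albanese maps
-/

namespace Pool.Agent.Q226.SC

/-- Smooth projective connected varieties over an algebraically closed field `k` of characteristic
`0`, embedded in `ℂ` (or with a fixed Weil cohomology theory), as far as they are used here. -/
structure Geo where
  /-- smooth projective connected varieties over `k` -/
  Var : Type
  /-- morphisms of varieties -/
  Mor : Var → Var → Type
  /-- dimension -/
  dim : Var → ℕ
  /-- `X` is simply connected -/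
  SC : Var → Prop
  /-- first rational cohomology `H¹(X, ℚ)` -/
  H1 : Var → Type
  /-- addition of `H¹` -/
  grp : ∀ X, AddCommGroup (H1 X)
  /-- scalar multiplication of `H¹` -/
  mod : ∀ X, Module ℚ (H1 X)
  /-- pull-back of classes along a morphism -/
  pull : ∀ {X Y : Var}, Mor X Y → H1 Y →ₗ[ℚ] H1 X

attribute [instance] Geo.grp Geo.mod

/-- The pull-back `g^* c` of a class `c ∈ H¹(Y)` along `g : X → Y`. -/
def Geo.res (G : Geo) {X Y : G.Var} (g : G.Mor X Y) (c : G.H1 Y) : G.H1 X := G.pull g c

/-- `H¹(X, ℚ) = 0`. -/
def Geo.Reg (G : Geo) (X : G.Var) : Prop := ∀ c : G.H1 X, c = 0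

/-- Let `f : V → A` be the Albanese map of `V`, assumed surjective with connected fibres, and `s` a
point of `A`. The double fibre is `Z = {(v, v') ∈ V × V : f(v) + f(v') = s}`. -/
structure DoubleFibre (G : Geo) (V : G.Var) where
  /-- the Albanese variety of `V` -/
  A : G.Var
  /-- the Albanese map `V → A` -/
  f : G.Mor V A
  /-- `Z = {(v, v') ∈ V × V : f(v) + f(v') = s}` -/
  Z : G.Var
  /-- the first projection `(v, v') ↦ v` -/
  P : G.Mor Z V
  /-- the second projection `(v, v') ↦ v'` -/
  P' : G.Mor Z V
  /-- the involution `(v, v') ↦ (v', v)` of `Z` -/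
  sw : G.Mor Z Z
  /-- a general fibre of the first projection; the second projection identifies it with the fibre
  `f⁻¹(s - f(v₀))` of `f` for a general `v₀ ∈ V` -/
  F : G.Var
  /-- the inclusion of this fibre in `Z` -/
  j : G.Mor F Z
  /-- a resolution of singularities of the quotient of `Z` by the involution -/
  Y : G.Var

/-- Well-known facts about the double fibre over a general point `s` of `A` (where `Z` is smooth by
generic smoothness, and connected as `f` has connected fibres). -/
structure DoubleFibre.Good {G : Geo} {V : G.Var} (D : DoubleFibre G V) : Prop where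
  /-- the Albanese map induces an isomorphism on `H¹` -/
  alb : ∀ c : G.H1 V, ∃ w : G.H1 D.A, G.res D.f w = c
  /-- the involution exchanges the projections -/
  sw1 : ∀ a : G.H1 V, G.res D.sw (G.res D.P a) = G.res D.P' a
  /-- the involution exchanges the projections -/
  sw2 : ∀ a : G.H1 V, G.res D.sw (G.res D.P' a) = G.res D.P a
  /-- `f ∘ P + f ∘ P'` is constant, and `(g + g')^* = g^* + g'^*` on the `H¹` of an abelian
  variety -/
  const : ∀ w : G.H1 D.A, G.res D.P (G.res D.f w) + G.res D.P' (G.res D.f w) = 0
  /-- Deligne's theorem of the fixed part (global invariant cycles): the classes in `H¹(F)` that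
  extend to `Z` are the classes invariant under `π₁(V°)`, and those that extend to `V` are the
  classes invariant under `π₁(A°)`; these are the same, as `V° → A°` is dominant with connected
  fibres, so that `π₁(V°) → π₁(A°)` is surjective -/
  fixed : ∀ c : G.H1 D.Z, ∃ b : G.H1 V, G.res D.j c = G.res D.j (G.res D.P' b)
  /-- a class in `H¹(Z)` that vanishes on the general fibre of the first projection comes from the
  base -/
  leray : ∀ c : G.H1 D.Z, G.res D.j c = 0 → ∃ a : G.H1 V, c = G.res D.P a
  /-- the first cohomology of a resolution of a quotient of a smooth variety by a finite group is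
  the invariant part of the first cohomology -/
  quot : (∀ c : G.H1 D.Z, G.res D.sw c = c → c = 0) → G.Reg D.Y

theorem Geo.res_add (G : Geo) {X Y : G.Var} (g : G.Mor X Y) (c c' : G.H1 Y) :
    G.res g (c + c') = G.res g c + G.res g c' := map_add (G.pull g) c c'

theorem Geo.res_sub (G : Geo) {X Y : G.Var} (g : G.Mor X Y) (c c' : G.H1 Y) :
    G.res g (c - c') = G.res g c - G.res g c' := map_sub (G.pull g) c c'

/-- `H¹(Z)` is generated by the pull-backs of `H¹(V)` along the two projections. -/
theorem DoubleFibre.Good.span {G : Geo} {V : G.Var} {D : DoubleFibre G V} (h : D.Good)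
    (c : G.H1 D.Z) : ∃ a b : G.H1 V, c = G.res D.P a + G.res D.P' b := by
  obtain ⟨b, hb⟩ := h.fixed c
  obtain ⟨a, ha⟩ := h.leray (c - G.res D.P' b) (by rw [G.res_sub, hb, sub_self])
  exact ⟨a, b, by rw [← ha, sub_add_cancel]⟩

/-- There are no nonzero classes in `H¹(Z)` that are invariant under the involution. -/
theorem DoubleFibre.Good.inv {G : Geo} {V : G.Var} {D : DoubleFibre G V} (h : D.Good)
    (c : G.H1 D.Z) (hc : G.res D.sw c = c) : c = 0 := by
  obtain ⟨a, b, hab⟩ := h.span c
  have h1 : G.res D.sw c = G.res D.P' a + G.res D.P b := by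
    rw [hab, G.res_add, h.sw1, h.sw2]
  obtain ⟨w, hw⟩ := h.alb (a + b)
  have h2 : c + c = 0 := by
    have h3 : c + c = G.res D.P (a + b) + G.res D.P' (a + b) := by
      calc c + c = c + G.res D.sw c := by rw [hc]
        _ = (G.res D.P a + G.res D.P' b) + (G.res D.P' a + G.res D.P b) := by
            rw [h1, ← hab]
        _ = G.res D.P (a + b) + G.res D.P' (a + b) := by
            rw [G.res_add, G.res_add]; abel
    rw [h3, ← hw]
    exact h.const w
  have h4 : (2 : ℚ) • c = 0 := by rw [two_smul]; exact h2
  rcases smul_eq_zero.1 h4 with h5 | h5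
  · norm_num at h5
  · exact h5

/-- **The resolution `Y` of the quotient of the double fibre has `H¹(Y) = 0`.** -/
theorem DoubleFibre.Good.reg {G : Geo} {V : G.Var} {D : DoubleFibre G V} (h : D.Good) :
    G.Reg D.Y :=
  h.quot h.inv

end Pool.Agent.Q226.SC
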