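import Pool.Agent.Q226.SC.Geo

set_option autoImplicit false

/-!
# The integral Mumford-Tate conjecture for second cohomology
-/

namespace Pool.Agent.Q226.SC

/-- Let `k` be a finitely generated field of characteristic `0`, embedded in `ℂ`. The varieties of
`G` are the smooth projective connected varieties over the algebraic closure of `k`; every one is
defined over a finite extension of `k`. For `X` let `H ⊂ H²(X, ℚ(1))` be the lattice of integral
classes. -/
structure IMTData (G : Geo) where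
  /-- `H²(X, ℚ(1))` -/
  H2 : G.Var → Type
  /-- addition -/
  grp : ∀ X, AddCommGroup (H2 X)
  /-- scalar multiplication -/
  mod : ∀ X, Module ℚ (H2 X)
  /-- pull-back of classes -/
  pull : ∀ {X Y : G.Var}, G.Mor X Y → H2 Y →ₗ[ℚ] H2 X
  /-- the linear map is a morphism of Hodge structures, and its `ℓ`-adic versions are morphisms of
  Galois representations (over a finite extension of `k`) for all `ℓ`, for example because it is
  induced by an algebraic correspondence -/
  Mot : ∀ {X Y : G.Var}, (H2 X →ₗ[ℚ] H2 Y) → Prop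
  /-- the same for linear maps to the trivial object -/
  Triv : ∀ {X : G.Var}, (H2 X →ₗ[ℚ] ℚ) → Prop
  /-- the group `GL(H ⊗ ℤ_ℓ)` -/
  Lin : G.Var → ℕ → Type
  /-- its group structure -/
  group : ∀ X ℓ, Group (Lin X ℓ)
  /-- the group `𝐆(ℤ_ℓ)`, where `𝐆` is the Zariski closure in `GL(H)` of the Mumford-Tate group -/
  MT : ∀ X ℓ, Subgroup (Lin X ℓ)
  /-- the finite extensions of `k` in the algebraic closure -/
  Fld : Type
  /-- inclusion of fields -/
  ord : Preorder Fld
  /-- two finite extensions lie in a third one -/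
  dir : IsDirectedOrder Fld
  /-- the image of the Galois group of `K` in `GL(H ⊗ ℤ_ℓ)`, if `X` is defined over `K` -/
  Im : ∀ X : G.Var, Fld → ∀ ℓ : ℕ, Subgroup (Lin X ℓ)
  /-- the Albanese map is surjective with connected fibres -/
  AlbFib : G.Var → Prop
  /-- `X` is defined over `k` -/
  Def : G.Var → Prop
  /-- `X` is an abelian variety (or a point) -/
  Ab : G.Var → Prop

attribute [instance] IMTData.grp IMTData.mod IMTData.group IMTData.ord IMTData.dir

variable {G : Geo} (M : IMTData G)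

/-- The pull-back of a class. -/
def IMTData.res {X Y : G.Var} (g : G.Mor X Y) (c : M.H2 Y) : M.H2 X := M.pull g c

/-- There is a constant `C` such that for every prime `ℓ` the image of the Galois group of `K` is a
subgroup of `𝐆(ℤ_ℓ)` of index at most `C`. -/
def IMTData.BoundedOver (X : G.Var) (K : M.Fld) : Prop := ∃ C : ℕ, ∀ ℓ : ℕ, ℓ.Prime →
  M.Im X K ℓ ≤ M.MT X ℓ ∧ (M.Im X K ℓ).relIndex (M.MT X ℓ) ≠ 0 ∧
    (M.Im X K ℓ).relIndex (M.MT X ℓ) ≤ C

/-- **Q1 for `X`**. In Q1 a field `K = k^conn` is fixed such that the Zariski closures of the images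
of the Galois groups of all larger fields are connected; the statements for the different fields
with this property are equivalent, so that Q1 is the following statement for all sufficiently large
fields `K`. -/
def IMTData.Bounded (X : G.Var) : Prop := ∃ K₀ : M.Fld, ∀ K : M.Fld, K₀ ≤ K → M.BoundedOver X K

/-- `H²(X)` embeds in `H²(W) ⊕ 1`. -/
def IMTData.Embeds (X W : G.Var) : Prop := ∃ (u : M.H2 X →ₗ[ℚ] M.H2 W) (l : M.H2 X →ₗ[ℚ] ℚ),
  M.Mot u ∧ M.Triv l ∧ ∀ x, u x = 0 → l x = 0 → x = 0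

/-- Functoriality of Mumford-Tate groups and Galois images. Suppose that `H²(X)` is a subobject of
`H²(W) ⊕ 1`. Then the Mumford-Tate group of `H²(W)` maps onto that of `H²(X)`. For a prime `ℓ` let
`P` be the group of the `g ∈ GL(H_W ⊗ ℤ_ℓ)` such that `(g, 1)` stabilises `H²(X) ⊗ ℚ_ℓ` and the
lattice `H_X ⊗ ℤ_ℓ`, and `π` the restriction. The index of the image of `𝐆_W(ℤ_ℓ) ∩ P` in
`𝐆_X(ℤ_ℓ)` is finite, and bounded for all `ℓ` (by the number of components of the kernel, for almost
all `ℓ`, by Lang's theorem); the images of the Galois group of `K` correspond, for all `K` over which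
`X`, `W` and the embedding are defined. -/
def Functorial : Prop := ∀ X W : G.Var, M.Embeds X W → ∃ (K₀ : M.Fld) (c : ℕ),
  ∀ K : M.Fld, K₀ ≤ K → ∀ ℓ : ℕ, ℓ.Prime →
  ∃ (P : Subgroup (M.Lin W ℓ)) (π : P →* M.Lin X ℓ), M.Im W K ℓ ≤ P ∧
    ((M.Im W K ℓ).subgroupOf P).map π = M.Im X K ℓ ∧
    ((M.MT W ℓ).subgroupOf P).map π ≤ M.MT X ℓ ∧
    (((M.MT W ℓ).subgroupOf P).map π).relIndex (M.MT X ℓ) ≠ 0 ∧
    (((M.MT W ℓ).subgroupOf P).map π).relIndex (M.MT X ℓ) ≤ c

/-- Sums and compositions of morphisms are morphisms. -/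
structure Additive : Prop where
  add : ∀ {X Y : G.Var} (u v : M.H2 X →ₗ[ℚ] M.H2 Y), M.Mot u → M.Mot v → M.Mot (u + v)
  comp : ∀ {X Y Z : G.Var} (u : M.H2 X →ₗ[ℚ] M.H2 Y) (v : M.H2 Y →ₗ[ℚ] M.H2 Z), M.Mot u →
    M.Mot v → M.Mot (v ∘ₗ u)
  zero : ∀ X : G.Var, M.Triv (0 : M.H2 X →ₗ[ℚ] ℚ)
  pull : ∀ {X Y : G.Var} (g : G.Mor X Y), M.Mot (M.pull g)

/-- `H²(X)` is a subobject of `H²(W)`. -/
def IMTData.Sub (X W : G.Var) : Prop := ∃ u : M.H2 X →ₗ[ℚ] M.H2 W, M.Mot u ∧ ∀ x, u x = 0 → x = 0

/-- Lefschetz: a variety `X` of dimension at least `2` contains a smooth complete intersection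
surface `S`, simply connected if `X` is and with `H¹(S) = 0` if `H¹(X) = 0`; the restriction
`H²(X) → H²(S)` is injective. -/
def IMTLefschetz : Prop := ∀ X : G.Var, 2 ≤ G.dim X → ∃ S : G.Var, G.dim S = 2 ∧
  (G.SC X → G.SC S) ∧ (G.Reg X → G.Reg S) ∧ M.Sub X S

/-- Hilbert squares: for a surface `X` with `H¹(X) = 0` the universal cover `W` of the Hilbert scheme
`X^[2]` (whose fundamental group is the finite group `H₁(X, ℤ)`) is a simply connected smooth
projective fourfold; `c ↦ p₁^* c + p₂^* c` embeds `H²(X)` in `H²(X^[2])`, hence in `H²(W)`. -/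
def IMTSquare : Prop := ∀ X : G.Var, G.dim X = 2 → G.Reg X →
  ∃ W : G.Var, 2 ≤ G.dim W ∧ G.SC W ∧ M.Sub X W

/-- Symmetric powers: for `n` large a resolution `V` of the `n`-th symmetric power of `X` has a
surjective Albanese map with connected fibres; `c ↦ ∑ pᵢ^* c` embeds `H²(X)` in `H²(V)`. -/
def IMTPowers : Prop := ∀ X : G.Var, 1 ≤ G.dim X →
  ∃ V : G.Var, M.AlbFib V ∧ 2 ≤ G.dim V ∧ M.Sub X V

/-- Let `D` be a double fibre for `V`, with projections `P, P' : Z → V`, and let `r` be the pull-back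
of the classes of `Z` invariant under the involution (composed with the projector on these
classes), i.e. of classes of the quotient, to its resolution `Y`. -/
structure IMTBasic {V : G.Var} (D : DoubleFibre G V) (r : M.H2 D.Z →ₗ[ℚ] M.H2 D.Y) : Prop where
  /-- `r` is a morphism -/
  er : M.Mot r
  /-- `r` is injective on the invariant classes -/
  inj : ∀ z : M.H2 D.Z, M.res D.sw z = z → r z = 0 → z = 0
  /-- the involution exchanges the projections -/
  sw1 : ∀ c : M.H2 V, M.res D.sw (M.res D.P c) = M.res D.P' c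
  /-- the involution exchanges the projections -/
  sw2 : ∀ c : M.H2 V, M.res D.sw (M.res D.P' c) = M.res D.P c

/-- Let `D` be a double fibre for `V`, with projections `P, P' : Z → V`, let `h` be an ample class of
`V`, `m` the dimension of the fibres of `f : V → A`, and `Φ(z) = P_*((P^* h + P'^* h)^m · z)`,
`ψ(c) = f_*(h^m c)`, `l(c) = m deg(h^(m-1) c | F)`, where `F` is a fibre of `f`. -/
structure IMTDouble {V : G.Var} (D : DoubleFibre G V) (h : M.H2 V) (Φ : M.H2 D.Z →ₗ[ℚ] M.H2 V)
    (ψ : M.H2 V →ₗ[ℚ] M.H2 D.A) (l : M.H2 V →ₗ[ℚ] ℚ) : Prop where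
  /-- `ψ` is a morphism -/
  eψ : M.Mot ψ
  /-- `l` is a morphism -/
  el : M.Triv l
  /-- projection formula: `Φ(P^* c) = N c`, where `N > 0` is the degree of `(P^* h + P'^* h)^m` on
  the fibres of `P` -/
  proj : ∃ N : ℚ, N ≠ 0 ∧ ∀ c : M.H2 V, Φ (M.res D.P c) = N • c
  /-- base change for the cartesian square `Z = V ×_A V` (the second map is `s - f`, and
  `(s - f)^* = f^*` on `H²(A)`) -/
  base : ∀ c : M.H2 V, Φ (M.res D.P' c) = M.res D.f (ψ c) + l c • h

/-- Double fibres: if the Albanese map `f : V → A` of `V` is surjective with connected fibres, then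
over a general point `s` of `A` the double fibre has the properties listed in `DoubleFibre.Good`,
`IMTBasic` and `IMTDouble`. -/
def IMTFibres : Prop := ∀ V : G.Var, M.AlbFib V → 2 ≤ G.dim V →
  ∃ (D : DoubleFibre G V) (r : M.H2 D.Z →ₗ[ℚ] M.H2 D.Y) (h : M.H2 V)
    (Φ : M.H2 D.Z →ₗ[ℚ] M.H2 V) (ψ : M.H2 V →ₗ[ℚ] M.H2 D.A) (l : M.H2 V →ₗ[ℚ] ℚ),
    D.Good ∧ M.Ab D.A ∧ 2 ≤ G.dim D.Y ∧ IMTBasic M D r ∧ IMTDouble M D h Φ ψ l

/-- Products with Kummer varieties: if `H¹(Y) = 0` and `A` is an abelian variety, the product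
`T = Y × Km(A)`, where `Km(A)` is a resolution of `A/(±1)`, has `H¹(T) = 0`, and `H²(Y) ⊕ H²(A)`
embeds in `H²(T)`, since all of `H²(A)` is invariant under `-1`. -/
def IMTKummer : Prop := ∀ Y A : G.Var, G.Reg Y → 2 ≤ G.dim Y → M.Ab A →
  ∃ (T : G.Var) (i : M.H2 Y →ₗ[ℚ] M.H2 T) (j : M.H2 A →ₗ[ℚ] M.H2 T), G.Reg T ∧ 2 ≤ G.dim T ∧
    M.Mot i ∧ M.Mot j ∧ ∀ y a, i y + j a = 0 → y = 0 ∧ a = 0

/-- Weil restriction: a simply connected surface `X` is defined over a finite extension `k'` of `k`;
let `S` be a smooth complete intersection surface over `k` in the Weil restriction of `X` from `k'`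
to `k`, which is a product of conjugates of `X`, one of them `X`. -/
def IMTWeil : Prop := ∀ X : G.Var, G.dim X = 2 → G.SC X →
  ∃ S : G.Var, G.dim S = 2 ∧ G.SC S ∧ M.Def S ∧ M.Sub X S

/-- The well-known facts. -/
structure IMTFacts : Prop where
  /-- simply connected varieties have `H¹ = 0` -/
  reg : ∀ W : G.Var, G.SC W → G.Reg W
  /-- the statement holds for curves and points: `H²(1)` is trivial of dimension at most `1` -/
  curve : ∀ X : G.Var, G.dim X ≤ 1 → M.Bounded X
  additive : Additive M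
  functorial : Functorial M
  lefschetz : IMTLefschetz M
  square : IMTSquare M
  powers : IMTPowers M
  doubles : IMTFibres M
  kummer : IMTKummer M
  weil : IMTWeil M

end Pool.Agent.Q226.SC
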