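import Pool.Agent.Q226.SC.IMT

set_option autoImplicit false

/-!
# The integral Mumford-Tate conjecture for second cohomology reduces to simply connected surfaces
-/

namespace Pool.Agent.Q226.SC

theorem relIndex_map_dvd {P Q : Type} [Group P] [Group Q] (f : P →* Q) (A B : Subgroup P) :
    (A.map f).relIndex (B.map f) ∣ A.relIndex B := by
  have h1 : (A.subgroupOf B).map (f.subgroupMap B) ≤ (A.map f).subgroupOf (B.map f) := by
    rintro x ⟨y, hy, rfl⟩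
    exact ⟨y.1, hy, rfl⟩
  exact (Subgroup.index_dvd_of_le h1).trans
    (Subgroup.index_map_dvd _ (f.subgroupMap_surjective B))

variable {G : Geo} {M : IMTData G}

/-- Q1 for `W` implies Q1 for `X` if `H²(X)` embeds in `H²(W) ⊕ 1`. -/
theorem bounded_of_embeds (F : IMTFacts M) {X W : G.Var} (h : M.Embeds X W) (hW : M.Bounded W) :
    M.Bounded X := by
  obtain ⟨K₁, c, hc⟩ := F.functorial X W h
  obtain ⟨K₂, hC'⟩ := hW
  obtain ⟨K₀, hK₁, hK₂⟩ := exists_ge_ge K₁ K₂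
  refine ⟨K₀, fun K hK => ?_⟩
  obtain ⟨C, hC⟩ := hC' K (hK₂.trans hK)
  refine ⟨C * c, fun ℓ hℓ => ?_⟩
  obtain ⟨P, π, h1, h2, h3, h4, h5⟩ := hc K (hK₁.trans hK) ℓ hℓ
  obtain ⟨g1, g2, g3⟩ := hC ℓ hℓ
  have e1 : (M.Im W K ℓ).subgroupOf P ≤ (M.MT W ℓ).subgroupOf P := fun x hx => g1 hx
  have e2 : ((M.Im W K ℓ).subgroupOf P).map π ≤ ((M.MT W ℓ).subgroupOf P).map π :=
    Subgroup.map_mono e1
  -- the index of the images in `𝐆_W(ℤ_ℓ) ∩ P`
  have e3 : ((M.Im W K ℓ).subgroupOf P).relIndex ((M.MT W ℓ).subgroupOf P)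
      = (M.Im W K ℓ).relIndex (M.MT W ℓ ⊓ P) := by
    rw [← Subgroup.inf_subgroupOf_right (M.MT W ℓ) P]
    exact Subgroup.relIndex_subgroupOf inf_le_right
  have e4 : (M.Im W K ℓ).relIndex (M.MT W ℓ ⊓ P) ≤ (M.Im W K ℓ).relIndex (M.MT W ℓ) :=
    Subgroup.relIndex_le_of_le_right inf_le_left g2
  have e5 : (M.Im W K ℓ).relIndex (M.MT W ℓ ⊓ P) ≠ 0 := fun h0 =>
    g2 (Subgroup.relIndex_eq_zero_of_le_right inf_le_left h0)
  have e6 := relIndex_map_dvd π ((M.Im W K ℓ).subgroupOf P) ((M.MT W ℓ).subgroupOf P)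
  rw [e3, h2] at e6
  have e7 : (M.Im X K ℓ).relIndex (((M.MT W ℓ).subgroupOf P).map π) ≠ 0 := by
    intro h0
    rw [h0] at e6
    exact e5 (Nat.eq_zero_of_zero_dvd e6)
  have e8 : (M.Im X K ℓ).relIndex (((M.MT W ℓ).subgroupOf P).map π) ≤ C :=
    (Nat.le_of_dvd (Nat.pos_of_ne_zero e5) e6).trans (e4.trans g3)
  have e9 : M.Im X K ℓ ≤ ((M.MT W ℓ).subgroupOf P).map π := h2 ▸ e2
  have e10 := Subgroup.relIndex_mul_relIndex _ _ _ e9 h3
  refine ⟨e9.trans h3, ?_, ?_⟩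
  · rw [← e10]
    exact mul_ne_zero e7 h4
  · rw [← e10]
    exact Nat.mul_le_mul e8 h5

theorem IMTData.Sub.bounded (F : IMTFacts M) {X W : G.Var} (h : M.Sub X W) (hW : M.Bounded W) :
    M.Bounded X := by
  obtain ⟨u, hu, h1⟩ := h
  exact bounded_of_embeds F ⟨u, 0, hu, F.additive.zero X, fun x hx _ => h1 x hx⟩ hW

/-- `H²(V)` embeds in `H²(Y) ⊕ H²(A) ⊕ 1`. -/
theorem IMTDouble.inj {V : G.Var} {D : DoubleFibre G V} {r : M.H2 D.Z →ₗ[ℚ] M.H2 D.Y} {h : M.H2 V}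
    {Φ : M.H2 D.Z →ₗ[ℚ] M.H2 V} {ψ : M.H2 V →ₗ[ℚ] M.H2 D.A} {l : M.H2 V →ₗ[ℚ] ℚ}
    (hB : IMTBasic M D r) (hD : IMTDouble M D h Φ ψ l) (c : M.H2 V)
    (h1 : r (M.res D.P c + M.res D.P' c) = 0) (h2 : ψ c = 0) (h3 : l c = 0) : c = 0 := by
  have e1 : M.res D.sw (M.res D.P c + M.res D.P' c) = M.res D.P c + M.res D.P' c := by
    have e2 : M.res D.sw (M.res D.P c + M.res D.P' c) =
        M.res D.sw (M.res D.P c) + M.res D.sw (M.res D.P' c) := map_add (M.pull D.sw) _ _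
    rw [e2, hB.sw1, hB.sw2, add_comm]
  have e3 := hB.inj _ e1 h1
  obtain ⟨N, hN, hP⟩ := hD.proj
  have e4 : Φ (M.res D.P c) + Φ (M.res D.P' c) = 0 := by rw [← map_add, e3, map_zero]
  have e5 : M.res D.f (0 : M.H2 D.A) = 0 := map_zero (M.pull D.f)
  rw [hP, hD.base, h2, h3, e5, zero_smul, add_zero, add_zero] at e4
  rcases smul_eq_zero.1 e4 with h | h
  · exact absurd h hN
  · exact h

/-- Q1 for varieties with `H¹ = 0` implies Q1 for `V`. -/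
theorem bounded_double (F : IMTFacts M)
    (hreg : ∀ Y : G.Var, 2 ≤ G.dim Y → G.Reg Y → M.Bounded Y) (V : G.Var)
    (hV : M.AlbFib V) (hVd : 2 ≤ G.dim V) : M.Bounded V := by
  obtain ⟨D, r, h, Φ, ψ, l, hG, hA, hYd, hB, hD⟩ := F.doubles V hV hVd
  obtain ⟨T, i, j, hT, hTd, hi, hj, hij⟩ := F.kummer D.Y D.A hG.reg hYd hA
  refine bounded_of_embeds F ⟨i ∘ₗ (r ∘ₗ (M.pull D.P + M.pull D.P')) + j ∘ₗ ψ, l, ?_, hD.el, ?_⟩
    (hreg T hTd hT)
  · have a := F.additive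
    exact a.add _ _ (a.comp _ _ (a.comp _ _ (a.add _ _ (a.pull _) (a.pull _)) hB.er) hi)
      (a.comp _ _ hD.eψ hj)
  · intro x hx hlx
    obtain ⟨h1, h2⟩ := hij _ _ hx
    exact IMTDouble.inj hB hD x h1 h2 hlx

/-- **Theorem.** Q1 for the geometrically simply connected surfaces over `k` implies Q1 for all
smooth projective varieties over finite extensions of `k`. -/
theorem bounded_of_sc (F : IMTFacts M)
    (h : ∀ S : G.Var, G.dim S = 2 → G.SC S → M.Def S → M.Bounded S) (X : G.Var) :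
    M.Bounded X := by
  have sc : ∀ W : G.Var, 2 ≤ G.dim W → G.SC W → M.Bounded W := by
    intro W hW hs
    obtain ⟨S, hS, h1, -, h3⟩ := F.lefschetz W hW
    obtain ⟨S', hS', h1', hd, h3'⟩ := F.weil S hS (h1 hs)
    exact h3.bounded F (h3'.bounded F (h S' hS' h1' hd))
  have reg : ∀ Y : G.Var, 2 ≤ G.dim Y → G.Reg Y → M.Bounded Y := by
    intro Y hY hr
    obtain ⟨S, hS, -, h2, h3⟩ := F.lefschetz Y hY
    obtain ⟨W, hW, hWs, hWT⟩ := F.square S hS (h2 hr)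
    exact h3.bounded F (hWT.bounded F (sc W hW hWs))
  rcases Nat.lt_or_ge (G.dim X) 1 with hX | hX
  · exact F.curve X (by omega)
  · obtain ⟨V, hV, hVd, hVT⟩ := F.powers X hX
    exact hVT.bounded F (bounded_double F reg V hV hVd)

end Pool.Agent.Q226.SC
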