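import Pool.Agent.Q226.SC.Power

set_option autoImplicit false

/-!
# Chow motives of surfaces
-/

namespace Pool.Agent.Q226.SC

open CategoryTheory CategoryTheory.Limits

universe u v

/-- Chow motives over `ℂ` with rational coefficients (the category `M`). -/
structure Motives (G : Geo) (M : Type u) [Category.{v} M] where
  /-- the Chow motive of a variety -/
  h : G.Var → M
  /-- finite direct sums of Tate twists of motives of abelian varieties (points and unit motives
  included) -/
  Abel : M → Prop
  /-- Kimura finite-dimensional motives -/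
  FD : M → Prop

variable {G : Geo} {M : Type u} [Category.{v} M]

/-- `N` is a direct summand of `K`. -/
def IsSummand (N K : M) : Prop := ∃ (a : N ⟶ K) (b : K ⟶ N), a ≫ b = 𝟙 N

variable [Preadditive M] [Linear ℚ M] [HasBinaryBiproducts M] (T : Motives G M)

/-- The morphism `g` factors through a finite direct sum of twists of motives of abelian
varieties. -/
def Motives.Small {N N' : M} (g : N ⟶ N') : Prop :=
  ∃ (K : M) (a : N ⟶ K) (b : K ⟶ N'), T.Abel K ∧ a ≫ b = g

/-- The motives of the surface `X`, of the complete intersection surface `R ⊂ Z ⊂ X^n` of a class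
`L^(d - 2)` (`d = dim Z`), where `L` is the sum of the pull-backs of an ample class of `X` and `M_R`
is the motive of `R`, and of the resolution `S` of `R/(ℤ/n)`. -/
structure PowerMotives {X : G.Var} (Q : PowerFibre G X) (M_R : M) (t : ZMod Q.n → (T.h X ⟶ M_R))
    (u : ZMod Q.n → (M_R ⟶ T.h X)) : Prop where
  /-- `t_i = x_i^*` and `u_i = x_(i *)`: the composition is the degree `N > 0` of `x_i : R → X` -/
  deg : ∃ N : ℕ, N ≠ 0 ∧ ∀ i, t i ≫ u i = (N : ℚ) • 𝟙 (T.h X)
  /-- for `i ≠ j` the composition `t_i u_j` is the class `(x_i, x_j)_*[R]` in `CH²(X × X)`. With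
  `g : X × X → A`, `g(x, y) = s - f(x) - f(y)`, base change and the projection formula give
  `c (l₁ + l₂)² + (l₁ + l₂) g^* D + g^* E`, where `l` is the ample class, `D ∈ CH¹(A)`,
  `E ∈ CH²(A)`; these correspondences factor through twists of the motive of `A` -/
  cross : ∀ i j, i ≠ j → T.Small (t i ≫ u j)
  /-- `∑ t_i` and `∑ u_i` are invariant under the rotations, so that their composition factors
  through the motive of `R/(ℤ/n)`, a direct summand of that of `S` -/
  quot : ∀ [NeZero Q.n], ∃ (t' : T.h X ⟶ T.h Q.S) (u' : T.h Q.S ⟶ T.h X),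
    t' ≫ u' = ∑ i, ∑ j, t i ≫ u j

/-- Fibres of sums of Albanese maps for surfaces. -/
def PowerFibres : Prop := ∀ X : G.Var, G.dim X = 2 → ∃ (Q : PowerFibre G X) (_ : NeZero Q.n)
  (M_R : M) (t : ZMod Q.n → (T.h X ⟶ M_R)) (u : ZMod Q.n → (M_R ⟶ T.h X)),
    Q.Good ∧ G.dim Q.S = 2 ∧ PowerMotives T Q M_R t u

/-- For a surface `X` with `H¹(X) = 0` let `S' ⊂ X^[2]` be a smooth complete intersection surface of
two general divisors of class `a l^(2) - b E`, where `l^(2)` comes from an ample class `l` of `X` and
`2 E` is the exceptional divisor; its fundamental group is that of `X^[2]`, i.e. the finite group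
`H₁(X, ℤ)`, and its universal cover `S` is a simply connected surface. The composition
`h(X) → h(S') → h(X)` of the incidence correspondence and its transpose is
`2 (a² l² - 2 b²) + 2 a² (l₁ + l₂)²`; the last term factors through unit and Lefschetz motives, and
`h(S')` is a direct summand of `h(S)`. -/
def HilbertSurfaces : Prop := ∀ X : G.Var, G.dim X = 2 → G.Reg X →
  ∃ (S : G.Var) (t : T.h X ⟶ T.h S) (u : T.h S ⟶ T.h X) (g : T.h X ⟶ T.h X) (c : ℚ),
    G.dim S = 2 ∧ G.SC S ∧ c ≠ 0 ∧ T.Small g ∧ t ≫ u = c • 𝟙 (T.h X) + g

/-- Kimura's theorems. -/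
structure KimuraFacts : Prop where
  /-- direct sums -/
  sum : ∀ N N' : M, T.FD N → T.FD N' → T.FD (N ⊞ N')
  /-- direct summands -/
  summand : ∀ N K : M, IsSummand N K → T.FD K → T.FD N
  /-- motives of abelian varieties and their twists are finite-dimensional -/
  abel : ∀ K : M, T.Abel K → T.FD K
  /-- the class of abelian motives above is closed under direct sums -/
  abelSum : ∀ K K' : M, T.Abel K → T.Abel K' → T.Abel (K ⊞ K')
  /-- the zero motive -/
  abelZero : ∃ K : M, T.Abel K

/-- The well-known facts. -/
structure MotiveFacts : Prop where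
  kimura : KimuraFacts T
  powers : PowerFibres T
  squares : HilbertSurfaces T

end Pool.Agent.Q226.SC
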