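import Pool.Agent.Q226.SC.Kimura

set_option autoImplicit false

/-!
# The motive of a surface is a summand of that of a simply connected surface and abelian motives
-/

namespace Pool.Agent.Q226.SC

open CategoryTheory CategoryTheory.Limits

universe u v

variable {G : Geo} {M : Type u} [Category.{v} M] [Preadditive M] [Linear ℚ M]
  [HasBinaryBiproducts M] {T : Motives G M}

omit [Preadditive M] [Linear ℚ M] [HasBinaryBiproducts M] in
theorem IsSummand.trans {N K L : M} (h : IsSummand N K) (h' : IsSummand K L) : IsSummand N L := by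
  obtain ⟨a, b, hab⟩ := h
  obtain ⟨c, d, hcd⟩ := h'
  refine ⟨a ≫ c, d ≫ b, ?_⟩
  rw [Category.assoc, ← Category.assoc c, hcd, Category.id_comp, hab]

/-- A nonzero multiple of the identity that is a sum of two morphisms, one factoring through `K` and
the other through `L`. -/
theorem summand_of_eq {N K L : M} (a : N ⟶ K) (b : K ⟶ N) (a' : N ⟶ L) (b' : L ⟶ N) (c : ℚ)
    (hc : c ≠ 0) (h : c • 𝟙 N = a ≫ b + a' ≫ b') : IsSummand N (K ⊞ L) := by
  refine ⟨biprod.lift a a', c⁻¹ • biprod.desc b b', ?_⟩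
  rw [Linear.comp_smul, biprod.lift_desc, ← h, smul_smul, inv_mul_cancel₀ hc, one_smul]

omit [Linear ℚ M] in
theorem small_zero (F : KimuraFacts T) {N N' : M} : T.Small (0 : N ⟶ N') := by
  obtain ⟨K, hK⟩ := F.abelZero
  exact ⟨K, 0, 0, hK, zero_comp⟩

omit [Linear ℚ M] in
theorem small_add (F : KimuraFacts T) {N N' : M} {g g' : N ⟶ N'} (h : T.Small g)
    (h' : T.Small g') : T.Small (g + g') := by
  obtain ⟨K, a, b, hK, rfl⟩ := h
  obtain ⟨K', a', b', hK', rfl⟩ := h'
  exact ⟨K ⊞ K', biprod.lift a a', biprod.desc b b', F.abelSum K K' hK hK', biprod.lift_desc⟩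

theorem small_sum (F : KimuraFacts T) {N N' : M} {ι : Type} (s : Finset ι) (g : ι → (N ⟶ N'))
    (h : ∀ i ∈ s, T.Small (g i)) : T.Small (∑ i ∈ s, g i) := by
  classical
  induction s using Finset.induction_on with
  | empty => simpa using small_zero F
  | insert i s hi ih =>
    rw [Finset.sum_insert hi]
    exact small_add F (h i (Finset.mem_insert_self _ _))
      (ih fun j hj => h j (Finset.mem_insert_of_mem hj))

omit [Linear ℚ M] [HasBinaryBiproducts M] in
theorem small_neg {N N' : M} {g : N ⟶ N'} (h : T.Small g) : T.Small (-g) := by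
  obtain ⟨K, a, b, hK, rfl⟩ := h
  exact ⟨K, a, -b, hK, by rw [Preadditive.comp_neg]⟩

/-- Step 1: from surfaces to surfaces with `H¹ = 0`. -/
theorem summand_reg (F : MotiveFacts T) (X : G.Var) (hX : G.dim X = 2) :
    ∃ (S : G.Var) (K : M), G.dim S = 2 ∧ G.Reg S ∧ T.Abel K ∧
      IsSummand (T.h X) (T.h S ⊞ K) := by
  classical
  obtain ⟨Q, hn, MR, t, u, hG, hS, hM⟩ := F.powers X hX
  obtain ⟨t', u', htu⟩ := hM.quot
  obtain ⟨N, hN, hdeg⟩ := hM.deg
  -- the sum of the cross terms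
  have hcross : T.Small (∑ i, ∑ j ∈ Finset.univ.erase i, t i ≫ u j) :=
    small_sum F.kimura _ _ fun i _ => small_sum F.kimura _ _ fun j hj =>
      hM.cross i j (Finset.ne_of_mem_erase hj).symm
  have hsplit : ∑ i, ∑ j, t i ≫ u j = ((Q.n : ℚ) * N) • 𝟙 (T.h X) +
      ∑ i, ∑ j ∈ Finset.univ.erase i, t i ≫ u j := by
    have h1 : ∀ i, ∑ j, t i ≫ u j = (N : ℚ) • 𝟙 (T.h X) +
        ∑ j ∈ Finset.univ.erase i, t i ≫ u j := fun i => by
      rw [← Finset.add_sum_erase _ _ (Finset.mem_univ i), hdeg]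
    rw [Finset.sum_congr rfl (fun i _ => h1 i), Finset.sum_add_distrib, Finset.sum_const,
      Finset.card_univ, ZMod.card, ← Nat.cast_smul_eq_nsmul ℚ, smul_smul]
  obtain ⟨K, a, b, hK, hab⟩ := small_neg hcross
  refine ⟨Q.S, K, hS, hG.reg, hK, summand_of_eq t' u' a b ((Q.n : ℚ) * N) ?_ ?_⟩
  · exact mul_ne_zero (Nat.cast_ne_zero.2 hn.out) (Nat.cast_ne_zero.2 hN)
  · rw [hab, htu, hsplit]
    abel

/-- Step 2: from surfaces with `H¹ = 0` to simply connected surfaces. -/
theorem summand_sc (F : MotiveFacts T) (X : G.Var) (hX : G.dim X = 2) (hr : G.Reg X) :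
    ∃ (S : G.Var) (K : M), G.dim S = 2 ∧ G.SC S ∧ T.Abel K ∧
      IsSummand (T.h X) (T.h S ⊞ K) := by
  obtain ⟨S, t, u, g, c, hS, hs, hc, hg, h⟩ := F.squares X hX hr
  obtain ⟨K, a, b, hK, hab⟩ := small_neg hg
  refine ⟨S, K, hS, hs, hK, summand_of_eq t u a b c hc ?_⟩
  rw [hab, h]
  abel

/-- **Theorem.** The Chow motive of a surface is a direct summand of the sum of the motive of a
simply connected surface and twists of motives of abelian varieties. -/
theorem summand_all (F : MotiveFacts T) (X : G.Var) (hX : G.dim X = 2) :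
    ∃ (S : G.Var) (K : M), G.dim S = 2 ∧ G.SC S ∧ T.Abel K ∧
      IsSummand (T.h X) (T.h S ⊞ K) := by
  obtain ⟨S, K, hS, hr, hK, h⟩ := summand_reg F X hX
  obtain ⟨S', K', hS', hs, hK', h'⟩ := summand_sc F S hS hr
  obtain ⟨a, b, hab⟩ := h'
  refine ⟨S', K' ⊞ K, hS', hs, F.kimura.abelSum K' K hK' hK, h.trans ?_⟩
  refine ⟨biprod.desc (a ≫ biprod.desc biprod.inl (biprod.inl ≫ biprod.inr))
    (biprod.inr ≫ biprod.inr), biprod.lift (biprod.lift biprod.fst (biprod.snd ≫ biprod.fst) ≫ b)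
    (biprod.snd ≫ biprod.snd), ?_⟩
  have e0 : (biprod.desc biprod.inl (biprod.inl ≫ biprod.inr) :
      T.h S' ⊞ K' ⟶ T.h S' ⊞ (K' ⊞ K)) ≫ biprod.lift biprod.fst (biprod.snd ≫ biprod.fst)
      = 𝟙 _ := by
    ext <;> simp
  have e1 : (biprod.desc biprod.inl (biprod.inl ≫ biprod.inr) :
      T.h S' ⊞ K' ⟶ T.h S' ⊞ (K' ⊞ K)) ≫ (biprod.snd ≫ biprod.snd) = 0 := by
    ext <;> simp
  ext
  · simp only [Category.assoc, biprod.inl_desc_assoc, biprod.lift_fst, Category.comp_id]
    rw [← Category.assoc _ _ b, e0, Category.id_comp, hab]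
    simp
  · simp only [Category.assoc, biprod.inl_desc_assoc, biprod.lift_snd, Category.comp_id]
    rw [e1, comp_zero]
    simp
  · have e2 : (biprod.inr ≫ biprod.inr : K ⟶ T.h S' ⊞ (K' ⊞ K)) ≫
        biprod.lift biprod.fst (biprod.snd ≫ biprod.fst) = 0 := by
      ext <;> simp
    have e3 : (biprod.inr ≫ biprod.inr : K ⟶ T.h S' ⊞ (K' ⊞ K)) ≫
        biprod.lift biprod.fst (biprod.snd ≫ biprod.fst) ≫ b = 0 := by
      rw [← Category.assoc, e2, zero_comp]
    simpa using e3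
  · simp

/-- **Theorem.** All surfaces are Kimura finite-dimensional if and only if all simply connected
surfaces are. -/
theorem fd_iff (F : MotiveFacts T) :
    (∀ X : G.Var, G.dim X = 2 → T.FD (T.h X)) ↔
      ∀ S : G.Var, G.dim S = 2 → G.SC S → T.FD (T.h S) := by
  refine ⟨fun h S hS _ => h S hS, fun h X hX => ?_⟩
  obtain ⟨S, K, hS, hs, hK, hsum⟩ := summand_all F X hX
  exact F.kimura.summand _ _ hsum (F.kimura.sum _ _ (h S hS hs) (F.kimura.abel K hK))

end Pool.Agent.Q226.SC
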