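import Pool.Agent.Q226.SC.Geo

set_option autoImplicit false

/-!
# The Mumford-Tate conjecture for second cohomology
-/

namespace Pool.Agent.Q226.SC

/-- Let `k` be a finitely generated field of characteristic `0`, embedded in `ℂ`, `ℓ` a prime and
`Ω` an algebraically closed field that contains the field of `ℓ`-adic numbers. The varieties of `G`
are the smooth projective connected varieties over the algebraic closure of `k`. -/
structure MTData (G : Geo) (Ω : Type) [Field Ω] where
  /-- `H²(X, ℚ(1)) ⊗ Ω`, which is also `H²(X, ℚ_ℓ(1)) ⊗ Ω` -/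
  H2 : G.Var → Type
  /-- addition -/
  grp : ∀ X, AddCommGroup (H2 X)
  /-- scalar multiplication -/
  mod : ∀ X, Module Ω (H2 X)
  /-- the `Ω`-points of the universal Mumford-Tate group (the automorphism group of the fibre functor
  on rational Hodge structures) -/
  MT : Type
  /-- the `Ω`-points of the universal `ℓ`-adic monodromy group (the projective limit, over all
  algebraic `ℓ`-adic representations of the Galois groups of finite extensions of `k`, of the
  identity components of the Zariski closures of the images) -/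
  Mon : Type
  /-- the action of the first group on the Hodge structure `H²(X)`; the operators obtained are the
  `Ω`-points of the Mumford-Tate group of `H²(X)` -/
  actM : ∀ X, MT → H2 X →ₗ[Ω] H2 X
  /-- the action of the second group on `H²(X)`; the operators obtained are the `Ω`-points of the
  identity component of the Zariski closure of the image of Galois -/
  actG : ∀ X, Mon → H2 X →ₗ[Ω] H2 X
  /-- pull-back of classes -/
  pull : ∀ {X Y : G.Var}, G.Mor X Y → H2 Y →ₗ[Ω] H2 X
  /-- the Albanese map is surjective with connected fibres -/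
  AlbFib : G.Var → Prop
  /-- `X` is defined over `k` -/
  Def : G.Var → Prop
  /-- `X` is an abelian variety (or a point) -/
  Ab : G.Var → Prop

attribute [instance] MTData.grp MTData.mod

variable {G : Geo} {Ω : Type} [Field Ω] (M : MTData G Ω)

/-- The pull-back of a class. -/
def MTData.res {X Y : G.Var} (g : G.Mor X Y) (c : M.H2 Y) : M.H2 X := M.pull g c

/-- The **Mumford-Tate conjecture** for `H²(X)` at `ℓ`: the Mumford-Tate group of `H²(X, ℚ(1))` and
the identity component of the Zariski closure of the image of Galois have the same operators on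
`H²(X) ⊗ Ω`. -/
def MTData.MTC (X : G.Var) : Prop := ∀ φ : M.H2 X →ₗ[Ω] M.H2 X,
  (∃ g, M.actM X g = φ) ↔ ∃ γ, M.actG X γ = φ

/-- The linear map `u : H²(X) → H²(W)` is a morphism of Hodge structures and of Galois
representations (over a finite extension of `k`), for example because it is induced by an algebraic
correspondence. -/
def MTData.Equi {X W : G.Var} (u : M.H2 X →ₗ[Ω] M.H2 W) : Prop :=
  (∀ g x, u (M.actM X g x) = M.actM W g (u x)) ∧ ∀ γ x, u (M.actG X γ x) = M.actG W γ (u x)

/-- The linear form `l` on `H²(X)` is a morphism to the trivial object. -/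
def MTData.Inva {X : G.Var} (l : M.H2 X →ₗ[Ω] Ω) : Prop :=
  (∀ g x, l (M.actM X g x) = l x) ∧ ∀ γ x, l (M.actG X γ x) = l x

/-- `H²(X)` is a subobject of `H²(W)`. -/
def MTData.Sub (X W : G.Var) : Prop := ∃ u : M.H2 X →ₗ[Ω] M.H2 W, M.Equi u ∧ ∀ x, u x = 0 → x = 0

/-- Lefschetz: a variety `X` of dimension at least `2` contains a smooth complete intersection
surface `S`, simply connected if `X` is and with `H¹(S) = 0` if `H¹(X) = 0`; the restriction
`H²(X) → H²(S)` is injective. -/
def MTLefschetz : Prop := ∀ X : G.Var, 2 ≤ G.dim X → ∃ S : G.Var, G.dim S = 2 ∧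
  (G.SC X → G.SC S) ∧ (G.Reg X → G.Reg S) ∧ M.Sub X S

/-- Hilbert squares: for a surface `X` with `H¹(X) = 0` the universal cover `W` of the Hilbert scheme
`X^[2]` (whose fundamental group is the finite group `H₁(X, ℤ)`) is a simply connected smooth
projective fourfold; `c ↦ p₁^* c + p₂^* c` embeds `H²(X)` in `H²(X^[2])`, hence in `H²(W)`. -/
def MTSquare : Prop := ∀ X : G.Var, G.dim X = 2 → G.Reg X →
  ∃ W : G.Var, 2 ≤ G.dim W ∧ G.SC W ∧ M.Sub X W

/-- Symmetric powers: for `n` large a resolution `V` of the `n`-th symmetric power of `X` has a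
surjective Albanese map with connected fibres; `c ↦ ∑ pᵢ^* c` embeds `H²(X)` in `H²(V)`. -/
def MTPowers : Prop := ∀ X : G.Var, 1 ≤ G.dim X →
  ∃ V : G.Var, M.AlbFib V ∧ 2 ≤ G.dim V ∧ M.Sub X V

/-- Let `D` be a double fibre for `V`, with projections `P, P' : Z → V`, and let `r` be the pull-back
of the classes of `Z` invariant under the involution (composed with the projector on these
classes), i.e. of classes of the quotient, to its resolution `Y`. -/
structure MTBasic {V : G.Var} (D : DoubleFibre G V) (r : M.H2 D.Z →ₗ[Ω] M.H2 D.Y) : Prop where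
  /-- pull-backs are morphisms -/
  eP : M.Equi (M.pull D.P)
  /-- pull-backs are morphisms -/
  eP' : M.Equi (M.pull D.P')
  /-- `r` is a morphism -/
  er : M.Equi r
  /-- `r` is injective on the invariant classes -/
  inj : ∀ z : M.H2 D.Z, M.res D.sw z = z → r z = 0 → z = 0
  /-- the involution exchanges the projections -/
  sw1 : ∀ c : M.H2 V, M.res D.sw (M.res D.P c) = M.res D.P' c
  /-- the involution exchanges the projections -/
  sw2 : ∀ c : M.H2 V, M.res D.sw (M.res D.P' c) = M.res D.P c

/-- Let `D` be a double fibre for `V`, with projections `P, P' : Z → V`, let `h` be an ample class of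
`V`, `m` the dimension of the fibres of `f : V → A`, and `Φ(z) = P_*((P^* h + P'^* h)^m · z)`,
`ψ(c) = f_*(h^m c)`, `l(c) = m deg(h^(m-1) c | F)`, where `F` is a fibre of `f`. -/
structure MTDouble {V : G.Var} (D : DoubleFibre G V) (h : M.H2 V) (Φ : M.H2 D.Z →ₗ[Ω] M.H2 V)
    (ψ : M.H2 V →ₗ[Ω] M.H2 D.A) (l : M.H2 V →ₗ[Ω] Ω) : Prop where
  /-- `ψ` is a morphism -/
  eψ : M.Equi ψ
  /-- `l` is a morphism -/
  el : M.Inva l
  /-- projection formula: `Φ(P^* c) = N c`, where `N > 0` is the degree of `(P^* h + P'^* h)^m` on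
  the fibres of `P` -/
  proj : ∃ N : Ω, N ≠ 0 ∧ ∀ c : M.H2 V, Φ (M.res D.P c) = N • c
  /-- base change for the cartesian square `Z = V ×_A V` (the second map is `s - f`, and
  `(s - f)^* = f^*` on `H²(A)`) -/
  base : ∀ c : M.H2 V, Φ (M.res D.P' c) = M.res D.f (ψ c) + l c • h

/-- Double fibres: if the Albanese map `f : V → A` of `V` is surjective with connected fibres, then
over a general point `s` of `A` the double fibre has the properties listed in `DoubleFibre.Good`,
`MTBasic` and `MTDouble`. -/
def MTFibres : Prop := ∀ V : G.Var, M.AlbFib V → 2 ≤ G.dim V →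
  ∃ (D : DoubleFibre G V) (r : M.H2 D.Z →ₗ[Ω] M.H2 D.Y) (h : M.H2 V)
    (Φ : M.H2 D.Z →ₗ[Ω] M.H2 V) (ψ : M.H2 V →ₗ[Ω] M.H2 D.A) (l : M.H2 V →ₗ[Ω] Ω),
    D.Good ∧ M.Ab D.A ∧ 2 ≤ G.dim D.Y ∧ MTBasic M D r ∧ MTDouble M D h Φ ψ l

/-- Products with Kummer varieties: if `H¹(Y) = 0` and `A` is an abelian variety, the product
`T = Y × Km(A)`, where `Km(A)` is a resolution of `A/(±1)`, has `H¹(T) = 0`, and `H²(Y) ⊕ H²(A)`
embeds in `H²(T)`, since all of `H²(A)` is invariant under `-1`. -/
def MTKummer : Prop := ∀ Y A : G.Var, G.Reg Y → 2 ≤ G.dim Y → M.Ab A →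
  ∃ (T : G.Var) (i : M.H2 Y →ₗ[Ω] M.H2 T) (j : M.H2 A →ₗ[Ω] M.H2 T), G.Reg T ∧ 2 ≤ G.dim T ∧
    M.Equi i ∧ M.Equi j ∧ ∀ y a, i y + j a = 0 → y = 0 ∧ a = 0

/-- Weil restriction: a simply connected surface `X` is defined over a finite extension `k'` of `k`;
let `S` be a smooth complete intersection surface over `k` in the Weil restriction of `X` from `k'`
to `k`, which is a product of conjugates of `X`, one of them `X`. -/
def MTWeil : Prop := ∀ X : G.Var, G.dim X = 2 → G.SC X →
  ∃ S : G.Var, G.dim S = 2 ∧ G.SC S ∧ M.Def S ∧ M.Sub X S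

/-- The well-known facts. -/
structure MTFacts : Prop where
  /-- simply connected varieties have `H¹ = 0` -/
  reg : ∀ W : G.Var, G.SC W → G.Reg W
  /-- the conjecture holds for curves and points: `H²(1)` is trivial of dimension at most `1` -/
  curve : ∀ X : G.Var, G.dim X ≤ 1 → M.MTC X
  lefschetz : MTLefschetz M
  square : MTSquare M
  powers : MTPowers M
  doubles : MTFibres M
  kummer : MTKummer M
  weil : MTWeil M

end Pool.Agent.Q226.SC
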