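import Pool.Agent.Q226.SC.MT

set_option autoImplicit false

/-!
# The Mumford-Tate conjecture for second cohomology reduces to simply connected surfaces
-/

namespace Pool.Agent.Q226.SC

variable {G : Geo} {Ω : Type} [Field Ω] {M : MTData G Ω}

/-- The conjecture for `W` implies the conjecture for `X` if `H²(X)` embeds in the direct sum of
`H²(W)` and a trivial object. -/
theorem mtc_of_inj {X W : G.Var} (u : M.H2 X →ₗ[Ω] M.H2 W) (l : M.H2 X →ₗ[Ω] Ω) (hu : M.Equi u)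
    (hl : M.Inva l) (h : ∀ x, u x = 0 → l x = 0 → x = 0) (hW : M.MTC W) : M.MTC X := by
  have key : ∀ x y : M.H2 X, u x = u y → l x = l y → x = y := by
    intro x y h1 h2
    exact sub_eq_zero.1 (h _ (by rw [map_sub, h1, sub_self]) (by rw [map_sub, h2, sub_self]))
  intro φ
  constructor
  · rintro ⟨g, rfl⟩
    obtain ⟨γ, hγ⟩ := (hW (M.actM W g)).1 ⟨g, rfl⟩
    refine ⟨γ, LinearMap.ext fun x => key _ _ ?_ ?_⟩
    · rw [hu.2, hu.1, hγ]
    · rw [hl.2, hl.1]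
  · rintro ⟨γ, rfl⟩
    obtain ⟨g, hg⟩ := (hW (M.actG W γ)).2 ⟨γ, rfl⟩
    refine ⟨g, LinearMap.ext fun x => key _ _ ?_ ?_⟩
    · rw [hu.2, hu.1, hg]
    · rw [hl.2, hl.1]

theorem MTData.Sub.mtc {X W : G.Var} (h : M.Sub X W) (hW : M.MTC W) : M.MTC X := by
  obtain ⟨u, hu, h1⟩ := h
  exact mtc_of_inj u 0 hu ⟨fun _ _ => rfl, fun _ _ => rfl⟩ (fun x hx _ => h1 x hx) hW

/-- `H²(V)` embeds in `H²(Y) ⊕ H²(A) ⊕ 1`. -/
theorem MTDouble.inj {V : G.Var} {D : DoubleFibre G V} {r : M.H2 D.Z →ₗ[Ω] M.H2 D.Y} {h : M.H2 V}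
    {Φ : M.H2 D.Z →ₗ[Ω] M.H2 V} {ψ : M.H2 V →ₗ[Ω] M.H2 D.A} {l : M.H2 V →ₗ[Ω] Ω}
    (hB : MTBasic M D r) (hD : MTDouble M D h Φ ψ l) (c : M.H2 V)
    (h1 : r (M.res D.P c + M.res D.P' c) = 0) (h2 : ψ c = 0) (h3 : l c = 0) : c = 0 := by
  have e1 : M.res D.sw (M.res D.P c + M.res D.P' c) = M.res D.P c + M.res D.P' c := by
    have e2 : M.res D.sw (M.res D.P c + M.res D.P' c) =
        M.res D.sw (M.res D.P c) + M.res D.sw (M.res D.P' c) := map_add (M.pull D.sw) _ _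
    rw [e2, hB.sw1, hB.sw2, add_comm]
  have e3 := hB.inj _ e1 h1
  obtain ⟨N, hN, hP⟩ := hD.proj
  have e4 : Φ (M.res D.P c) + Φ (M.res D.P' c) = 0 := by rw [← map_add, e3, map_zero]
  have e5 : M.res D.f (0 : M.H2 D.A) = 0 := map_zero (M.pull D.f)
  rw [hP, hD.base, h2, h3, e5, zero_smul, add_zero, add_zero] at e4
  rcases smul_eq_zero.1 e4 with h | h
  · exact absurd h hN
  · exact h

/-- The conjecture for varieties with `H¹ = 0` implies the conjecture for `V`. -/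
theorem mtc_double (F : MTFacts M) (hreg : ∀ Y : G.Var, 2 ≤ G.dim Y → G.Reg Y → M.MTC Y) (V : G.Var)
    (hV : M.AlbFib V) (hVd : 2 ≤ G.dim V) : M.MTC V := by
  obtain ⟨D, r, h, Φ, ψ, l, hG, hA, hYd, hB, hD⟩ := F.doubles V hV hVd
  obtain ⟨T, i, j, hT, hTd, hi, hj, hij⟩ := F.kummer D.Y D.A hG.reg hYd hA
  refine mtc_of_inj (i ∘ₗ r ∘ₗ (M.pull D.P + M.pull D.P') + j ∘ₗ ψ) l ⟨?_, ?_⟩ hD.el ?_
    (hreg T hTd hT)
  · intro g x
    simp only [LinearMap.add_apply, LinearMap.comp_apply, map_add, hB.eP.1, hB.eP'.1, hB.er.1,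
      hi.1, hj.1, hD.eψ.1]
  · intro γ x
    simp only [LinearMap.add_apply, LinearMap.comp_apply, map_add, hB.eP.2, hB.eP'.2, hB.er.2,
      hi.2, hj.2, hD.eψ.2]
  · intro x hx hlx
    obtain ⟨h1, h2⟩ := hij _ _ hx
    exact MTDouble.inj hB hD x h1 h2 hlx

/-- **Theorem.** The Mumford-Tate conjecture for `H²` of the geometrically simply connected surfaces
over `k` implies it for `H²` of all smooth projective varieties over finite extensions of `k`. -/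
theorem mtc_of_sc (F : MTFacts M) (h : ∀ S : G.Var, G.dim S = 2 → G.SC S → M.Def S → M.MTC S)
    (X : G.Var) : M.MTC X := by
  have sc : ∀ W : G.Var, 2 ≤ G.dim W → G.SC W → M.MTC W := by
    intro W hW hs
    obtain ⟨S, hS, h1, -, h3⟩ := F.lefschetz W hW
    obtain ⟨S', hS', h1', hd, h3'⟩ := F.weil S hS (h1 hs)
    exact h3.mtc (h3'.mtc (h S' hS' h1' hd))
  have reg : ∀ Y : G.Var, 2 ≤ G.dim Y → G.Reg Y → M.MTC Y := by
    intro Y hY hr
    obtain ⟨S, hS, -, h2, h3⟩ := F.lefschetz Y hY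
    obtain ⟨W, hW, hWs, hWT⟩ := F.square S hS (h2 hr)
    exact h3.mtc (hWT.mtc (sc W hW hWs))
  rcases Nat.lt_or_ge (G.dim X) 1 with hX | hX
  · exact F.curve X (by omega)
  · obtain ⟨V, hV, hVd, hVT⟩ := F.powers X hX
    exact hVT.mtc (mtc_double F reg V hV hVd)

end Pool.Agent.Q226.SC
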