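import Pool.Agent.Q226.SC.Geo

set_option autoImplicit false

/-!
# Fibres of sums of Albanese maps and their quotients by the cyclic group
-/

namespace Pool.Agent.Q226.SC

/-- Let `X` be a smooth projective surface with Albanese map `f : X → A`, `n = 2 k` an even number,
`s` a point of `A`, and `Z = {(x_i) ∈ X^n : ∑ f(x_i) = s}`. The coordinates are indexed by
`ℤ / n`; the coordinates in the set `I` (of `k` elements) give a morphism `P : Z → X^k`, the other
ones a morphism `P' : Z → X^k`. -/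
structure PowerFibre (G : Geo) (X : G.Var) where
  /-- the Albanese variety of `X` -/
  A : G.Var
  /-- the Albanese map `X → A` -/
  f : G.Mor X A
  /-- the number of coordinates -/
  n : ℕ
  /-- the set `I` of half of the coordinates -/
  I : ZMod n → Prop
  /-- the fibre `Z` -/
  Z : G.Var
  /-- the coordinates `x_i` -/
  p : ZMod n → G.Mor Z X
  /-- the rotations `(x_i) ↦ (x_(i + r))` of `Z` -/
  rot : ZMod n → G.Mor Z Z
  /-- a general fibre of `P`; `P'` identifies it with a fibre of the map `∑ f : X^k → A` -/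
  F : G.Var
  /-- the inclusion of this fibre in `Z` -/
  j : G.Mor F Z
  /-- a resolution of singularities of `R / (ℤ/n)`, where `R ⊂ Z` is a general complete intersection
  surface that is the inverse image of a surface in the quotient of `Z` by the rotations -/
  S : G.Var

variable {G : Geo} {X : G.Var} (Q : PowerFibre G X)

/-- The class `∑ x_i^* a_i` in `H¹(Z)`. -/
def PowerFibre.sum [NeZero Q.n] (a : ZMod Q.n → G.H1 X) : G.H1 Q.Z := ∑ i, G.res (Q.p i) (a i)

/-- Well-known facts if `k` is large and `s` general. -/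
structure PowerFibre.Good [NeZero Q.n] : Prop where
  /-- the Albanese map induces an isomorphism on `H¹` -/
  alb : ∀ c : G.H1 X, ∃ w : G.H1 Q.A, G.res Q.f w = c
  /-- the rotations permute the coordinates -/
  rot : ∀ (r i : ZMod Q.n) (a : G.H1 X), G.res (Q.rot r) (G.res (Q.p i) a) = G.res (Q.p (i + r)) a
  /-- `∑ f(x_i)` is constant on `Z`, and `(g + g')^* = g^* + g'^*` on the `H¹` of an abelian
  variety -/
  const : ∀ w : G.H1 Q.A, Q.sum (fun _ => G.res Q.f w) = 0
  /-- Deligne's theorem of the fixed part for `∑ f : X^k → A` (surjective with connected fibres for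
  `k` large) and `P : Z → X^k`: the classes in `H¹(F)` that extend to `Z` extend to `X^k`; moreover
  `H¹(X^k)` is the sum of the `x_i^* H¹(X)` -/
  fixed : ∀ c : G.H1 Q.Z, ∃ b : ZMod Q.n → G.H1 X, (∀ i, Q.I i → b i = 0) ∧
    G.res Q.j c = G.res Q.j (Q.sum b)
  /-- a class in `H¹(Z)` that vanishes on the general fibre of `P` comes from the base `X^k` -/
  leray : ∀ c : G.H1 Q.Z, G.res Q.j c = 0 → ∃ a : ZMod Q.n → G.H1 X, c = Q.sum a
  /-- `H¹(S)` is the invariant part of `H¹(R)`, and `H¹(R) = H¹(Z)` by Lefschetz' theorem -/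
  quot : (∀ c : G.H1 Q.Z, (∀ r, G.res (Q.rot r) c = c) → c = 0) → G.Reg Q.S

variable {Q}

theorem PowerFibre.sum_sub [NeZero Q.n] (a b : ZMod Q.n → G.H1 X) :
    Q.sum a - Q.sum b = Q.sum (fun i => a i - b i) := by
  unfold PowerFibre.sum
  rw [← Finset.sum_sub_distrib]
  exact Finset.sum_congr rfl fun i _ => (G.res_sub _ _ _).symm

/-- `H¹(Z)` is generated by the pull-backs of `H¹(X)` along the coordinates. -/
theorem PowerFibre.Good.span [NeZero Q.n] (h : Q.Good) (c : G.H1 Q.Z) :
    ∃ a : ZMod Q.n → G.H1 X, c = Q.sum a := by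
  obtain ⟨b, -, hb⟩ := h.fixed c
  obtain ⟨a, ha⟩ := h.leray (c - Q.sum b) (by rw [G.res_sub, hb, sub_self])
  refine ⟨fun i => a i - (0 - b i), ?_⟩
  rw [← PowerFibre.sum_sub, ← ha]
  have e : Q.sum (fun i => 0 - b i) = - Q.sum b := by
    rw [← PowerFibre.sum_sub]
    have e0 : Q.sum (fun _ => (0 : G.H1 X)) = 0 :=
      Finset.sum_eq_zero fun i _ => map_zero (G.pull (Q.p i))
    rw [e0, zero_sub]
  rw [e]
  abel

/-- There are no nonzero classes in `H¹(Z)` invariant under the rotations. -/
theorem PowerFibre.Good.inv [NeZero Q.n] (h : Q.Good) (c : G.H1 Q.Z)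
    (hc : ∀ r, G.res (Q.rot r) c = c) : c = 0 := by
  obtain ⟨a, ha⟩ := h.span c
  obtain ⟨w, hw⟩ := h.alb (∑ i, a i)
  have h1 : (Q.n : ℚ) • c = Q.sum (fun _ => ∑ i, a i) := by
    have e1 : ∑ r : ZMod Q.n, G.res (Q.rot r) c = (Q.n : ℚ) • c := by
      rw [Finset.sum_congr rfl (fun r _ => hc r), Finset.sum_const, Finset.card_univ,
        ZMod.card, ← Nat.cast_smul_eq_nsmul ℚ]
    have e2 : ∀ r, G.res (Q.rot r) c = ∑ i, G.res (Q.p (i + r)) (a i) := by
      intro r
      have e3 : G.res (Q.rot r) c = ∑ i, G.res (Q.rot r) (G.res (Q.p i) (a i)) := by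
        rw [ha]
        exact map_sum (G.pull (Q.rot r)) _ _
      rw [e3]
      exact Finset.sum_congr rfl fun i _ => h.rot r i (a i)
    rw [← e1, Finset.sum_congr rfl (fun r _ => e2 r), Finset.sum_comm]
    have e4 : ∀ i, ∑ r, G.res (Q.p (i + r)) (a i) = ∑ r, G.res (Q.p r) (a i) := fun i =>
      Fintype.sum_equiv (Equiv.addLeft i) _ _ fun r => rfl
    rw [Finset.sum_congr rfl (fun i _ => e4 i), Finset.sum_comm]
    unfold PowerFibre.sum
    exact Finset.sum_congr rfl fun r _ => (map_sum (G.pull (Q.p r)) _ _).symm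
  rw [← hw, h.const w] at h1
  rcases smul_eq_zero.1 h1 with h2 | h2
  · exact absurd (Nat.cast_eq_zero.1 h2) (NeZero.ne Q.n)
  · exact h2

/-- **The surface `S` has `H¹(S) = 0`.** -/
theorem PowerFibre.Good.reg [NeZero Q.n] (h : Q.Good) : G.Reg Q.S := h.quot h.inv

end Pool.Agent.Q226.SC
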