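import Pool.Agent.Q226.SC.Geo

set_option autoImplicit false

/-!
# Tate classes and divisor classes in second cohomology
-/

namespace Pool.Agent.Q226.SC

/-- Let `k` be a finitely generated field of characteristic `0`, `ℓ` a prime number and `E` the
field of `ℓ`-adic numbers. The varieties of `G` are the smooth projective connected varieties over
an algebraic closure of `k`, and simply connected means that the étale fundamental group is
trivial. -/
structure TateData (G : Geo) (E : Type) [Field E] where
  /-- `H²(X, ℚ_ℓ(1))` -/
  H2 : G.Var → Type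
  /-- addition -/
  grp : ∀ X, AddCommGroup (H2 X)
  /-- scalar multiplication -/
  mod : ∀ X, Module E (H2 X)
  /-- the Tate classes: `X` is defined over a finite extension `k'` of `k`, and the Tate classes are
  the classes fixed by an open subgroup of the Galois group of `k'` -/
  Tate : ∀ X, Submodule E (H2 X)
  /-- the span of the classes of divisors on `X` -/
  Alg : ∀ X, Submodule E (H2 X)
  /-- pull-back of classes -/
  pull : ∀ {X Y : G.Var}, G.Mor X Y → H2 Y →ₗ[E] H2 X
  /-- the geometrically connected and geometrically simply connected smooth projective surfaces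
  over `k` -/
  Surf : Type
  /-- base change to the algebraic closure -/
  geo : Surf → G.Var
  /-- the classes in `H²` fixed by the Galois group of `k` -/
  Inv : ∀ S : Surf, Submodule E (H2 (geo S))
  /-- the span of the classes of the divisors on `S` defined over `k` -/
  Pic : ∀ S : Surf, Submodule E (H2 (geo S))
  /-- the Albanese map is surjective with connected fibres -/
  AlbFib : G.Var → Prop

attribute [instance] TateData.grp TateData.mod

variable {G : Geo} {E : Type} [Field E] (T : TateData G E)

/-- The pull-back of a class. -/
def TateData.res {X Y : G.Var} (g : G.Mor X Y) (c : T.H2 Y) : T.H2 X := T.pull g c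

/-- `c` is a Tate class. -/
def TateData.IsTate {X : G.Var} (c : T.H2 X) : Prop := c ∈ T.Tate X

/-- `c` is a combination of classes of divisors. -/
def TateData.IsAlg {X : G.Var} (c : T.H2 X) : Prop := c ∈ T.Alg X

/-- The Tate conjecture for divisors for `X`, over all finite extensions of a field of definition:
all Tate classes in `H²(X, ℚ_ℓ(1))` are combinations of classes of divisors. -/
def TateData.T1 (X : G.Var) : Prop := ∀ c : T.H2 X, T.IsTate c → T.IsAlg c

/-- The Tate conjecture for divisors for a surface `S` over `k` itself, i.e. the surjectivity of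
`Pic(S) ⊗ ℚ_ℓ → H²(S, ℚ_ℓ(1))^G`. -/
def TateData.T1k (S : T.Surf) : Prop := ∀ c ∈ T.Inv S, c ∈ T.Pic S

/-- Transfer: to every Tate class `c` of `X` there is a Tate class `y` of `W` such that `c` is
algebraic if `y` is algebraic. -/
def TateData.Transfer (X W : G.Var) : Prop :=
  ∀ c : T.H2 X, T.IsTate c → ∃ y : T.H2 W, T.IsTate y ∧ (T.IsAlg y → T.IsAlg c)

/-- Lefschetz: a variety `X` of dimension at least `2` contains a smooth complete intersection
surface `S`, simply connected if `X` is and with `H¹(S) = 0` if `H¹(X) = 0`; if the restriction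
`i^* c` of a class is algebraic then so is `L^(d - 2) c = i_* i^* c`, hence `c` (Lefschetz' theorem
on `(1,1)`-classes). -/
def TateLefschetz : Prop := ∀ X : G.Var, 2 ≤ G.dim X → ∃ (S : G.Var) (i : G.Mor S X), G.dim S = 2 ∧
  (G.SC X → G.SC S) ∧ (G.Reg X → G.Reg S) ∧ (∀ c : T.H2 X, T.IsTate c → T.IsTate (T.res i c)) ∧
  ∀ c : T.H2 X, T.IsAlg (T.res i c) → T.IsAlg c

/-- Hilbert squares: for a surface `X` with `H¹(X) = 0` the universal cover `W` of the Hilbert scheme
`X^[2]` (whose fundamental group is the finite group `H₁(X, ℤ)`) is a simply connected smooth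
projective fourfold; a class `c` of `X` gives the class `p₁^* c + p₂^* c` of `X^[2]` and its
pull-back `y` to `W`. -/
def TateSquare : Prop := ∀ X : G.Var, G.dim X = 2 → G.Reg X →
  ∃ W : G.Var, 2 ≤ G.dim W ∧ G.SC W ∧ T.Transfer X W

/-- Symmetric powers: for `n` large a resolution `V` of the `n`-th symmetric power of `X` has a
surjective Albanese map with connected fibres; a class `c` of `X` gives the class `y = ∑ pᵢ^* c` of
`V`. -/
def TatePowers : Prop := ∀ X : G.Var, 1 ≤ G.dim X →
  ∃ V : G.Var, T.AlbFib V ∧ 2 ≤ G.dim V ∧ T.Transfer X V

/-- Let `D` be a double fibre for `V`, with projections `P, P' : Z → V`, and let `h` be an ample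
class of `V`: elementary facts. -/
structure TateBasic {V : G.Var} (D : DoubleFibre G V) (h : T.H2 V) : Prop where
  /-- `h` is algebraic -/
  ample : T.IsAlg h
  /-- pull-backs of algebraic classes are algebraic -/
  algA : ∀ a : T.H2 D.A, T.IsAlg a → T.IsAlg (T.res D.f a)
  /-- pull-backs of Tate classes are Tate classes -/
  tate : ∀ c : T.H2 V, T.IsTate c → T.IsTate (T.res D.P c) ∧ T.IsTate (T.res D.P' c)
  /-- the involution exchanges the projections -/
  sw1 : ∀ c : T.H2 V, T.res D.sw (T.res D.P c) = T.res D.P' c
  /-- the involution exchanges the projections -/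
  sw2 : ∀ c : T.H2 V, T.res D.sw (T.res D.P' c) = T.res D.P c
  /-- the classes of `Z` invariant under the involution come from the quotient, hence from its
  resolution `Y` -/
  quot : ∀ z : T.H2 D.Z, T.IsTate z → T.res D.sw z = z →
    ∃ y : T.H2 D.Y, T.IsTate y ∧ (T.IsAlg y → T.IsAlg z)

/-- Let `D` be a double fibre for `V`, with projections `P, P' : Z → V`, let `h` be an ample class of
`V`, and `m` the dimension of the fibres of `f : V → A`, hence of `P`; facts on the map
`Φ(z) = P_*((P^* h + P'^* h)^m · z)` from `H²(Z)` to `H²(V)`. -/
structure TateDouble {V : G.Var} (D : DoubleFibre G V) (h : T.H2 V)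
    (Φ : T.H2 D.Z →ₗ[E] T.H2 V) : Prop where
  /-- `Φ` is given by an algebraic correspondence -/
  alg : ∀ z : T.H2 D.Z, T.IsAlg z → T.IsAlg (Φ z)
  /-- projection formula: `Φ(P^* c) = N c`, where `N > 0` is the degree of `(P^* h + P'^* h)^m` on
  the fibres of `P` -/
  proj : ∃ N : E, N ≠ 0 ∧ ∀ c : T.H2 V, Φ (T.res D.P c) = N • c
  /-- base change for the cartesian square `Z = V ×_A V` (the second map is `s - f`):
  `Φ(P'^* c) = (s - f)^* f_*(h^m c) + m deg(h^(m-1) c | F) h`, where `F` is a fibre of `f`; here
  `(s - f)^* = f^*` on `H²(A)`, and `f_*(h^m c)` is a Tate class in `H²(A)` if `c` is one -/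
  base : ∀ c : T.H2 V, T.IsTate c → ∃ (a : T.H2 D.A) (l : E),
    T.IsTate a ∧ Φ (T.res D.P' c) = T.res D.f a + l • h

/-- Double fibres: if the Albanese map `f : V → A` of `V` is surjective with connected fibres, then
over a general point `s` of `A` the double fibre has the properties listed in `DoubleFibre.Good`
and `TateDouble`; the Tate conjecture for divisors holds for the abelian variety `A`, by Faltings'
theorem. -/
def TateFibres : Prop := ∀ V : G.Var, T.AlbFib V → 2 ≤ G.dim V →
  ∃ (D : DoubleFibre G V) (h : T.H2 V) (Φ : T.H2 D.Z →ₗ[E] T.H2 V), D.Good ∧ 2 ≤ G.dim D.Y ∧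
    TateBasic T D h ∧ TateDouble T D h Φ ∧ T.T1 D.A

/-- Weil restriction: a Tate class `c` of a simply connected surface `X` is fixed by the Galois
group of a finite extension `k'` of `k` over which `X` is defined. It gives a class of the Weil
restriction `R` of `X` from `k'` to `k` (a product of conjugates of `X`), fixed by the Galois group
of `k`, and a class `y` of a smooth complete intersection surface `S ⊂ R` over `k`; if `y` is
algebraic, then so is `c`. -/
def WeilRestriction : Prop := ∀ X : G.Var, G.dim X = 2 → G.SC X → ∀ c : T.H2 X, T.IsTate c →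
  ∃ S : T.Surf, ∃ y ∈ T.Inv S, y ∈ T.Pic S → T.IsAlg c

/-- The well-known facts. -/
structure TateFacts : Prop where
  /-- simply connected varieties have `H¹ = 0` -/
  reg : ∀ W : G.Var, G.SC W → G.Reg W
  /-- the surfaces over `k` in question are simply connected surfaces over the algebraic closure -/
  surf : ∀ S : T.Surf, G.dim (T.geo S) = 2 ∧ G.SC (T.geo S)
  /-- classes fixed by the Galois group are Tate classes -/
  inv : ∀ S : T.Surf, ∀ c ∈ T.Inv S, T.IsTate c
  /-- a class fixed by the Galois group of `k` which is a combination of classes of divisors over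
  the algebraic closure is a combination of classes of divisors over `k` (take the mean over
  conjugates) -/
  mean : ∀ S : T.Surf, ∀ c ∈ T.Inv S, T.IsAlg c → c ∈ T.Pic S
  /-- the Tate conjecture for divisors is trivial for curves and points: `H²` is spanned by the
  class of a point, or zero -/
  curve : ∀ X : G.Var, G.dim X ≤ 1 → T.T1 X
  lefschetz : TateLefschetz T
  square : TateSquare T
  powers : TatePowers T
  doubles : TateFibres T
  weil : WeilRestriction T

end Pool.Agent.Q226.SC
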