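import Pool.Agent.Q226.SC.Tate

set_option autoImplicit false

/-!
# The Tate conjecture for divisors reduces to simply connected surfaces
-/

namespace Pool.Agent.Q226.SC

variable {G : Geo} {E : Type} [Field E] {T : TateData G E}

theorem TateData.Transfer.t1 {X W : G.Var} (h : T.Transfer X W) (hW : T.T1 W) : T.T1 X := by
  intro c hc
  obtain ⟨y, hy, h1⟩ := h c hc
  exact h1 (hW y hy)

/-- The Tate conjecture for divisors on `Y` implies it for `V`. -/
theorem TateDouble.t1 {V : G.Var} {D : DoubleFibre G V} {h : T.H2 V}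
    {Φ : T.H2 D.Z →ₗ[E] T.H2 V} (hB : TateBasic T D h) (hD : TateDouble T D h Φ) (hA : T.T1 D.A)
    (hY : T.T1 D.Y) : T.T1 V := by
  intro c hc
  obtain ⟨h1, h2⟩ := hB.tate c hc
  have e1 : T.res D.sw (T.res D.P c + T.res D.P' c) = T.res D.P c + T.res D.P' c := by
    have e2 : T.res D.sw (T.res D.P c + T.res D.P' c) =
        T.res D.sw (T.res D.P c) + T.res D.sw (T.res D.P' c) := map_add (T.pull D.sw) _ _
    rw [e2, hB.sw1, hB.sw2, add_comm]
  obtain ⟨y, hy, hyz⟩ := hB.quot (T.res D.P c + T.res D.P' c) (Submodule.add_mem _ h1 h2) e1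
  have hz : Φ (T.res D.P c + T.res D.P' c) ∈ T.Alg V := hD.alg _ (hyz (hY y hy))
  obtain ⟨N, hN, hP⟩ := hD.proj
  obtain ⟨a, l, ha, hl⟩ := hD.base c hc
  rw [map_add, hP, hl] at hz
  have h3 : T.res D.f a + l • h ∈ T.Alg V :=
    Submodule.add_mem _ (hB.algA a (hA a ha)) (Submodule.smul_mem _ _ hB.ample)
  have h4 : N • c ∈ T.Alg V := by
    have h5 := Submodule.sub_mem _ hz h3
    rwa [add_sub_cancel_right] at h5
  have h6 := Submodule.smul_mem _ N⁻¹ h4
  rwa [smul_smul, inv_mul_cancel₀ hN, one_smul] at h6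

/-- **Tate conjecture for divisors on all varieties from simply connected surfaces.** -/
theorem t1_of_sc (F : TateFacts T) (h : ∀ S : G.Var, G.dim S = 2 → G.SC S → T.T1 S) (X : G.Var) :
    T.T1 X := by
  -- simply connected varieties
  have lef : ∀ X : G.Var, 2 ≤ G.dim X → ∃ S : G.Var, G.dim S = 2 ∧ (G.SC X → G.SC S) ∧
      (G.Reg X → G.Reg S) ∧ (T.T1 S → T.T1 X) := by
    intro X hX
    obtain ⟨S, i, hS, h1, h2, h3, h4⟩ := F.lefschetz X hX
    exact ⟨S, hS, h1, h2, fun hT c hc => h4 c (hT _ (h3 c hc))⟩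
  have sc : ∀ W : G.Var, 2 ≤ G.dim W → G.SC W → T.T1 W := by
    intro W hW hs
    obtain ⟨S, hS, h1, -, h3⟩ := lef W hW
    exact h3 (h S hS (h1 hs))
  -- varieties with H¹ = 0
  have reg : ∀ Y : G.Var, 2 ≤ G.dim Y → G.Reg Y → T.T1 Y := by
    intro Y hY hr
    obtain ⟨S, hS, -, h2, h3⟩ := lef Y hY
    obtain ⟨W, hW, hWs, hWT⟩ := F.square S hS (h2 hr)
    exact h3 (hWT.t1 (sc W hW hWs))
  -- all varieties
  rcases Nat.lt_or_ge (G.dim X) 1 with hX | hX
  · exact F.curve X (by omega)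
  · obtain ⟨V, hV, hVd, hVT⟩ := F.powers X hX
    obtain ⟨D, c, Φ, hG, hY, hB, hD, hA⟩ := F.doubles V hV hVd
    exact hVT.t1 (hD.t1 hB hA (reg D.Y hY hG.reg))

/-- **Theorem.** The Tate conjecture for divisors on geometrically simply connected surfaces over
`k` is equivalent to the Tate conjecture for divisors on all smooth projective varieties over all
finite extensions of `k`. -/
theorem tate_iff (F : TateFacts T) :
    (∀ S : T.Surf, T.T1k S) ↔ ∀ X : G.Var, T.T1 X := by
  constructor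
  · intro h
    refine t1_of_sc F fun X hX hs c hc => ?_
    obtain ⟨S, y, hy, h1⟩ := F.weil X hX hs c hc
    exact h1 (h S y hy)
  · intro h S c hc
    exact F.mean S c hc (h _ c (F.inv S c hc))

end Pool.Agent.Q226.SC
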