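import Pool.Agent.Q226.SC.Geo

set_option autoImplicit false

/-!
# Zero-cycles, families of effective zero-cycles, Albanese kernels
-/

namespace Pool.Agent.Q226.SC

/-- Zero-cycles and Albanese maps. -/
structure Cycles (G : Geo) where
  /-- the closed points of `X` -/
  Pt : G.Var → Type
  /-- the group `Alb_X(k)` -/
  Alb : G.Var → Type
  /-- its group law -/
  grp : ∀ X, AddCommGroup (Alb X)
  /-- an Albanese map `X → Alb_X`, normalised at some base point, on closed points -/
  alb : ∀ X, Pt X → Alb X
  /-- the subgroup of the zero-cycles that are rationally equivalent to `0` -/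
  Rat : ∀ X, AddSubgroup (Pt X →₀ ℤ)
  /-- algebraic families of effective zero-cycles on `X` parametrised by `W`, i.e. morphisms from
  `W` to a symmetric power of `X` -/
  Fam : G.Var → G.Var → Type
  /-- the member of a family at a point of `W` -/
  cyc : ∀ {W X : G.Var}, Fam W X → Pt W → (Pt X →₀ ℤ)
  /-- composition: a family of zero-cycles on `V` over `W` and a family of zero-cycles on `X` over
  `V` give a family of zero-cycles on `X` over `W` -/
  comp : ∀ {W V X : G.Var}, Fam W V → Fam V X → Fam W X
  /-- the Albanese map of `V` is surjective with connected fibres -/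
  AlbFib : G.Var → Prop

attribute [instance] Cycles.grp

variable {G : Geo} (C : Cycles G)

/-- The degree of a zero-cycle. -/
def degree {P : Type} (z : P →₀ ℤ) : ℤ := z.sum fun _ n => n

/-- The image of a zero-cycle in the Albanese variety: `∑ nᵢ [xᵢ] ↦ ∑ nᵢ alb(xᵢ)`. -/
def Cycles.albSum (X : G.Var) (z : C.Pt X →₀ ℤ) : C.Alb X := z.sum fun x n => n • C.alb X x

/-- The map `∑ nᵢ [wᵢ] ↦ ∑ nᵢ F(wᵢ)` on zero-cycles given by a family of zero-cycles. -/
noncomputable def Cycles.push {W X : G.Var} (F : C.Fam W X) (z : C.Pt W →₀ ℤ) : C.Pt X →₀ ℤ :=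
  z.sum fun w n => n • C.cyc F w

/-- The kernel of the Albanese map: zero-cycles `z` of degree `0` with Albanese image `0`. -/
def Cycles.InKernel (X : G.Var) (z : C.Pt X →₀ ℤ) : Prop := degree z = 0 ∧ C.albSum X z = 0

/-- Beilinson's conjecture for `X`: `F²(X) = 0`, i.e. the Albanese map is injective on classes of
zero-cycles of degree `0`. -/
def Cycles.Injective (X : G.Var) : Prop := ∀ z, C.InKernel X z → z ∈ C.Rat X

/-- The family `F` of effective zero-cycles on `X` connects `z`: there are two points `s, s'` of the
base with `z = F(s) - F(s')`. -/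
def Cycles.Connects {S X : G.Var} (F : C.Fam S X) (z : C.Pt X →₀ ℤ) : Prop :=
  ∃ s s' : C.Pt S, z = C.cyc F s - C.cyc F s'

/-- Any two points of `S` are rationally equivalent, i.e. `CH₀(S) = ℤ`. -/
def Cycles.OneClass (S : G.Var) : Prop :=
  ∀ s s' : C.Pt S, Finsupp.single s 1 - Finsupp.single s' 1 ∈ C.Rat S

/-- Elementary facts on families of zero-cycles and Albanese varieties. -/
structure Basic : Prop where
  /-- members of a composition -/
  comp : ∀ {W V X : G.Var} (E : C.Fam W V) (F : C.Fam V X) (w : C.Pt W),
    C.cyc (C.comp E F) w = C.push F (C.cyc E w)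
  /-- families of zero-cycles respect rational equivalence -/
  rat : ∀ {W X : G.Var} (F : C.Fam W X) (z : C.Pt W →₀ ℤ), z ∈ C.Rat W → C.push F z ∈ C.Rat X
  /-- simply connected varieties have `H¹ = 0` -/
  reg : ∀ W : G.Var, G.SC W → G.Reg W
  /-- if `H¹(W) = 0` then the Albanese variety of `W` is a point, and every morphism from `W` to an
  abelian variety is constant; the degree of a family is constant -/
  const : ∀ {W X : G.Var} (F : C.Fam W X), G.Reg W → ∀ w w' : C.Pt W, C.alb W w = C.alb W w' ∧
    C.albSum X (C.cyc F w) = C.albSum X (C.cyc F w') ∧ degree (C.cyc F w) = degree (C.cyc F w')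
  /-- the identity family -/
  one : ∀ W : G.Var, ∃ I : C.Fam W W, ∀ w, C.cyc I w = Finsupp.single w 1
  /-- varieties of positive dimension have infinitely many points -/
  inf : ∀ X : G.Var, 1 ≤ G.dim X → Infinite (C.Pt X)

/-- Lefschetz' theorems and Bertini's theorem with base points: any two points of a variety `X` of
dimension at least `2` lie on a smooth complete intersection surface `S ⊂ X`, which is simply
connected if `X` is, and has `H¹(S) = 0` if `H¹(X) = 0`. -/
def Lefschetz : Prop := ∀ X : G.Var, 2 ≤ G.dim X → ∀ x x' : C.Pt X,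
  ∃ (S : G.Var) (i : C.Fam S X) (s s' : C.Pt S), G.dim S = 2 ∧
    C.cyc i s = Finsupp.single x 1 ∧ C.cyc i s' = Finsupp.single x' 1 ∧
    (G.SC X → G.SC S) ∧ (G.Reg X → G.Reg S)

/-- For a surface `X` the Hilbert scheme `X^[2]` is smooth projective with fundamental group
`H₁(X, ℤ)`, which is finite if `H¹(X, ℚ) = 0`; its universal cover `W` is a simply connected
smooth projective fourfold, a point of which gives a subscheme of length two of `X`. -/
def HilbertSquare : Prop := ∀ X : G.Var, G.dim X = 2 → G.Reg X →
  ∃ (W : G.Var) (c : C.Fam W X), 2 ≤ G.dim W ∧ G.SC W ∧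
    ∀ x x' : C.Pt X, x ≠ x' → ∃ w, C.cyc c w = Finsupp.single x 1 + Finsupp.single x' 1

/-- For `n` large let `V` be a resolution of singularities of the `n`-th symmetric power of `X`. Its
Albanese variety is that of `X`, and the Albanese map of `V` is surjective with connected fibres. -/
def SymmetricPowers : Prop := ∀ X : G.Var, 1 ≤ G.dim X → ∃ n₀ : ℕ, ∀ n, n₀ ≤ n →
  ∃ (V : G.Var) (c : C.Fam V X), C.AlbFib V ∧ 2 ≤ G.dim V ∧
    (∀ D : C.Pt X →₀ ℤ, 0 ≤ D → degree D = n → ∃ v, C.cyc c v = D) ∧
    ∀ v v', C.albSum X (C.cyc c v) = C.albSum X (C.cyc c v') → C.alb V v = C.alb V v'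

/-- Double fibres: if the Albanese map `f : V → A` is surjective with connected fibres, then for all
`s` in a nonempty open subset of `A` the double fibre `Z` over `s` is a smooth projective connected
variety with the properties listed in `DoubleFibre.Good`; a point of the resolution `Y` of its
quotient gives an effective zero-cycle `v + v'` of degree `2` on `V`, and all `v + v'` with
`f(v) + f(v') = s` are obtained in this way. -/
def DoubleFibres : Prop := ∀ V : G.Var, C.AlbFib V → 2 ≤ G.dim V →
  Function.Surjective (C.alb V) ∧ ∃ U : Set (C.Alb V), U.Nonempty ∧ ∀ s ∈ U,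
    ∃ (D : DoubleFibre G V) (c : C.Fam D.Y V), D.Good ∧ 2 ≤ G.dim D.Y ∧
      ∀ v v' : C.Pt V, C.alb V v + C.alb V v' = s →
        ∃ y, C.cyc c y = Finsupp.single v 1 + Finsupp.single v' 1

/-- The well-known facts. -/
structure Facts : Prop where
  basic : Basic C
  lefschetz : Lefschetz C
  square : HilbertSquare C
  powers : SymmetricPowers C
  doubles : DoubleFibres C

end Pool.Agent.Q226.SC
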