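import Pool.Agent.Q226.SC.ZC

set_option autoImplicit false

/-!
# The Albanese kernel is generated by simply connected surfaces
-/

namespace Pool.Agent.Q226.SC

variable {G : Geo} {C : Cycles G}

theorem degree_add {P : Type} (z z' : P →₀ ℤ) : degree (z + z') = degree z + degree z' :=
  Finsupp.sum_add_index' (fun _ => rfl) (fun _ _ _ => rfl)

theorem degree_sub {P : Type} (z z' : P →₀ ℤ) : degree (z - z') = degree z - degree z' :=
  Finsupp.sum_sub_index (fun _ _ _ => rfl)

theorem degree_single {P : Type} (x : P) (n : ℤ) : degree (Finsupp.single x n) = n :=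
  Finsupp.sum_single_index rfl

theorem albSum_sub (X : G.Var) (z z' : C.Pt X →₀ ℤ) :
    C.albSum X (z - z') = C.albSum X z - C.albSum X z' :=
  Finsupp.sum_sub_index (fun _ _ _ => sub_smul _ _ _)

theorem albSum_add (X : G.Var) (z z' : C.Pt X →₀ ℤ) :
    C.albSum X (z + z') = C.albSum X z + C.albSum X z' :=
  Finsupp.sum_add_index' (fun _ => zero_smul _ _) (fun _ _ _ => add_smul _ _ _)

theorem albSum_single (X : G.Var) (x : C.Pt X) (n : ℤ) :
    C.albSum X (Finsupp.single x n) = n • C.alb X x :=
  Finsupp.sum_single_index (zero_smul _ _)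

theorem push_sub {W X : G.Var} (F : C.Fam W X) (z z' : C.Pt W →₀ ℤ) :
    C.push F (z - z') = C.push F z - C.push F z' :=
  Finsupp.sum_sub_index (fun _ _ _ => sub_smul _ _ _)

theorem push_add {W X : G.Var} (F : C.Fam W X) (z z' : C.Pt W →₀ ℤ) :
    C.push F (z + z') = C.push F z + C.push F z' :=
  Finsupp.sum_add_index' (fun _ => zero_smul _ _) (fun _ _ _ => add_smul _ _ _)

theorem push_single {W X : G.Var} (F : C.Fam W X) (w : C.Pt W) :
    C.push F (Finsupp.single w 1) = C.cyc F w := by
  unfold Cycles.push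
  rw [Finsupp.sum_single_index (h := fun w n => n • C.cyc F w) (zero_smul _ _)]
  exact one_smul _ _

/-- From a family over a variety with `H¹ = 0` to a family over a simply connected surface. -/
theorem connect (h : Facts C) {X Y : G.Var} (hY : G.Reg Y) (hd : 2 ≤ G.dim Y) (F : C.Fam Y X)
    (y y' : C.Pt Y) : ∃ (S : G.Var) (E : C.Fam S X), G.dim S = 2 ∧ G.SC S ∧
      C.Connects E (C.cyc F y - C.cyc F y') := by
  obtain ⟨T, i, t, t', hT, ht, ht', -, hTr⟩ := h.lefschetz Y hd y y'
  obtain ⟨W, c, hW, hWs, hc⟩ := h.square T hT (hTr hY)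
  have : Infinite (C.Pt T) := h.basic.inf T (by omega)
  obtain ⟨u, hu⟩ := Infinite.exists_notMem_finset (α := C.Pt T) (by
    classical
    exact ({t, t'} : Finset (C.Pt T)))
  simp only [Finset.mem_insert, Finset.mem_singleton, not_or] at hu
  obtain ⟨w, hw⟩ := hc t u (fun e => hu.1 e.symm)
  obtain ⟨w', hw'⟩ := hc t' u (fun e => hu.2 e.symm)
  obtain ⟨S, k, s, s', hS, hs, hs', hSs, -⟩ := h.lefschetz W hW w w'
  refine ⟨S, C.comp k (C.comp c (C.comp i F)), hS, hSs hWs, s, s', ?_⟩
  have e1 : C.cyc (C.comp k (C.comp c (C.comp i F))) s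
      = C.cyc F y + C.push F (C.cyc i u) := by
    rw [h.basic.comp, hs, push_single, h.basic.comp, hw, push_add, push_single, push_single,
      h.basic.comp, h.basic.comp, ht, push_single]
  have e2 : C.cyc (C.comp k (C.comp c (C.comp i F))) s'
      = C.cyc F y' + C.push F (C.cyc i u) := by
    rw [h.basic.comp, hs', push_single, h.basic.comp, hw', push_add, push_single, push_single,
      h.basic.comp, h.basic.comp, ht', push_single]
  rw [e1, e2]
  abel

/-- **Theorem 1.** A zero-cycle of degree `0` lies in the kernel of the Albanese map if and only if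
it is the difference of two members of a family of effective zero-cycles over a simply connected
surface. -/
theorem inKernel_iff (h : Facts C) (X : G.Var) (hX : 1 ≤ G.dim X) (z : C.Pt X →₀ ℤ) :
    C.InKernel X z ↔ ∃ (S : G.Var) (F : C.Fam S X), G.dim S = 2 ∧ G.SC S ∧ C.Connects F z := by
  constructor
  · rintro ⟨hz1, hz2⟩
    obtain ⟨n₀, hn₀⟩ := h.powers X hX
    have : Infinite (C.Pt X) := h.basic.inf X hX
    obtain ⟨x₀⟩ : Nonempty (C.Pt X) := inferInstance
    classical
    -- positive and negative parts
    set D : C.Pt X →₀ ℤ := z.mapRange (fun n => max n 0) (by simp) with hD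
    set D' : C.Pt X →₀ ℤ := z.mapRange (fun n => max (-n) 0) (by simp) with hD'
    have hDD : z = D - D' := by
      ext x
      simp only [hD, hD', Finsupp.mapRange_apply, Finsupp.coe_sub, Pi.sub_apply]
      rcases le_total (z x) 0 with hx | hx
      · rw [max_eq_right hx, max_eq_left (by omega)]; ring
      · rw [max_eq_left hx, max_eq_right (by omega)]; ring
    have hD0 : 0 ≤ D := fun x => by simp [hD]
    have hD0' : 0 ≤ D' := fun x => by simp [hD']
    have hdeg : degree D = degree D' := by
      have h1 := hz1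
      rw [hDD, degree_sub] at h1
      omega
    have halb : C.albSum X D = C.albSum X D' := by
      have h1 := hz2
      rw [hDD, albSum_sub] at h1
      exact sub_eq_zero.1 h1
    have hpos : 0 ≤ degree D := Finsupp.sum_nonneg fun x _ => hD0 x
    -- add a multiple of a point
    set n : ℕ := n₀ + (degree D).toNat with hn
    set E : C.Pt X →₀ ℤ := Finsupp.single x₀ (n₀ : ℤ) with hE
    have hE0 : 0 ≤ E := by
      rw [hE]
      exact Finsupp.single_nonneg.2 (by positivity)
    obtain ⟨V, c, hV, hVd, hVc, hVa⟩ := hn₀ n (by omega)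
    have hdn : degree (D + E) = n := by
      rw [degree_add, hE, degree_single, hn]
      push_cast
      rw [Int.toNat_of_nonneg hpos]
      ring
    have hdn' : degree (D' + E) = n := by
      rw [degree_add, ← hdeg, ← degree_add, hdn]
    obtain ⟨v, hv⟩ := hVc (D + E) (add_nonneg hD0 hE0) hdn
    obtain ⟨w, hw⟩ := hVc (D' + E) (add_nonneg hD0' hE0) hdn'
    have hvw : C.alb V v = C.alb V w := by
      apply hVa
      rw [hv, hw, albSum_add, albSum_add, halb]
    obtain ⟨hsur, U, ⟨s, hs⟩, hU⟩ := h.doubles V hV hVd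
    obtain ⟨DF, cY, hG, hYd, hY⟩ := hU s hs
    obtain ⟨v', hv'⟩ := hsur (s - C.alb V v)
    obtain ⟨y, hy⟩ := hY v v' (by rw [hv']; abel)
    obtain ⟨y', hy'⟩ := hY w v' (by rw [hv', ← hvw]; abel)
    obtain ⟨S, F, hS1, hS2, hS3⟩ := connect h hG.reg hYd (C.comp cY c) y y'
    refine ⟨S, F, hS1, hS2, ?_⟩
    have e : C.cyc (C.comp cY c) y - C.cyc (C.comp cY c) y' = z := by
      rw [h.basic.comp, h.basic.comp, hy, hy', push_add, push_add, push_single, push_single,
        push_single, hv, hw, hDD]
      abel
    rwa [e] at hS3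
  · rintro ⟨S, F, -, hS, s, s', hz⟩
    obtain ⟨-, h2, h3⟩ := h.basic.const F (h.basic.reg S hS) s s'
    refine ⟨?_, ?_⟩
    · rw [hz, degree_sub, h3, sub_self]
    · rw [hz, albSum_sub, h2, sub_self]

/-- **Theorem 2.** The Albanese map is injective for all varieties of positive dimension if and only
if any two points of a simply connected surface are rationally equivalent. -/
theorem injective_iff (h : Facts C) :
    (∀ X : G.Var, 1 ≤ G.dim X → C.Injective X) ↔
      ∀ S : G.Var, G.dim S = 2 → G.SC S → C.OneClass S := by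
  constructor
  · intro hX S hS hSs s s'
    obtain ⟨I, hI⟩ := h.basic.one S
    refine hX S (by omega) _ ⟨?_, ?_⟩
    · rw [degree_sub, degree_single, degree_single, sub_self]
    · rw [albSum_sub, albSum_single, albSum_single, one_smul, one_smul,
        (h.basic.const I (h.basic.reg S hSs) s s').1, sub_self]
  · intro hS X hX z hz
    obtain ⟨S, F, hS1, hS2, s, s', hz'⟩ := (inKernel_iff h X hX z).1 hz
    have h1 := h.basic.rat F _ (hS S hS1 hS2 s s')
    rwa [push_sub, push_single, push_single, ← hz'] at h1

end Pool.Agent.Q226.SC
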