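import Pool.Agent.Q226.SC.ZCMain

set_option autoImplicit false

/-!
# Zero-cycles over number fields and rational points of simply connected surfaces over `ℚ`
-/

namespace Pool.Agent.Q226.SC

/-- Smooth projective varieties over `ℚ`, zero-cycles on them, and Abel-Jacobi maps. The varieties
are integral but not necessarily geometrically connected: the varieties over number fields are
considered as varieties over `ℚ`. `G` and `C` are the varieties over `ℚ̄` and their zero-cycles. -/
structure Arith {G : Geo} (C : Cycles G) where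
  /-- smooth projective varieties over `ℚ` -/
  Sch : Type
  /-- a connected component of `X ⊗ ℚ̄` -/
  geo : Sch → G.Var
  /-- `X` is geometrically connected -/
  Conn : Sch → Prop
  /-- the group of the zero-cycles on `X` -/
  Z : Sch → Type
  /-- its group law -/
  grpZ : ∀ X, AddCommGroup (Z X)
  /-- base change of zero-cycles from `X` to `X ⊗ ℚ̄` and restriction to `geo X` -/
  ext : ∀ X, Z X →+ (C.Pt (geo X) →₀ ℤ)
  /-- the zero-cycles rationally equivalent to `0` -/
  Rat : ∀ X, AddSubgroup (Z X)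
  /-- the set `X(ℚ)` of rational points -/
  Pts : Sch → Type
  /-- the zero-cycle of a rational point -/
  pt : ∀ X, Pts X → Z X
  /-- families of effective zero-cycles on `X` over `W`: morphisms `W → Sym^N X` over `ℚ` -/
  FamQ : Sch → Sch → Type
  /-- the homomorphism on zero-cycles given by a family -/
  push : ∀ {W X : Sch}, FamQ W X → Z W →+ Z X
  /-- the different Abel-Jacobi maps considered -/
  Index : Type
  /-- the homologically trivial zero-cycles -/
  hom : ∀ X, AddSubgroup (Z X)
  /-- the target of the Abel-Jacobi map -/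
  J : Index → Sch → Type
  /-- its group law -/
  grpJ : ∀ i X, AddCommGroup (J i X)
  /-- the Abel-Jacobi map on homologically trivial zero-cycles -/
  aj : ∀ i X, hom X →+ J i X

attribute [instance] Arith.grpZ Arith.grpJ

variable {G : Geo} {C : Cycles G} (Q : Arith C)

/-- The member `E(w)` of the family `E` at the rational point `w`. -/
def Arith.cyc {W X : Q.Sch} (E : Q.FamQ W X) (w : Q.Pts W) : Q.Z X := Q.push E (Q.pt W w)

/-- The zero-cycle `z` is homologically trivial and its Abel-Jacobi image is zero. -/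
def Arith.AJKernel (i : Q.Index) (X : Q.Sch) (z : Q.Z X) : Prop :=
  ∃ h : z ∈ Q.hom X, Q.aj i X ⟨z, h⟩ = 0

/-- The kernel of the Abel-Jacobi map on the homologically trivial classes of zero-cycles on `X` is
a torsion group. -/
def Arith.Injective (i : Q.Index) (X : Q.Sch) : Prop :=
  ∀ z : Q.Z X, Q.AJKernel i X z → ∃ n : ℕ, 0 < n ∧ n • z ∈ Q.Rat X

/-- The variety `T` over `ℚ` is a geometrically (connected and) simply connected surface. -/
def Arith.SCSurface (T : Q.Sch) : Prop :=
  Q.Conn T ∧ G.dim (Q.geo T) = 2 ∧ G.SC (Q.geo T)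

/-- Any two rational points of `T` are rationally equivalent up to torsion. -/
def Arith.PointsEquivalent (T : Q.Sch) : Prop :=
  ∀ t t' : Q.Pts T, ∃ n : ℕ, 0 < n ∧ n • (Q.pt T t - Q.pt T t') ∈ Q.Rat T

/-- The differences of rational points of `T` span a subspace of dimension less than `m` of the
rational Chow group of zero-cycles: any `m` of them, `t₁ - t₀, …, t_m - t₀`, satisfy a nontrivial
linear relation with integral coefficients. -/
def Arith.RankBelow (m : ℕ) (T : Q.Sch) : Prop :=
  ∀ (t₀ : Q.Pts T) (t : Fin m → Q.Pts T),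
    ∃ n : Fin m → ℤ, n ≠ 0 ∧ ∑ j, n j • (Q.pt T (t j) - Q.pt T t₀) ∈ Q.Rat T

/-- The well-known facts over `ℚ`. -/
structure Arith.Facts : Prop where
  /-- the Abel-Jacobi map on zero-cycles is the Albanese map, up to torsion -/
  albanese : ∀ i X z, Q.AJKernel i X z → ∃ n : ℕ, 0 < n ∧ C.InKernel (Q.geo X) (Q.ext X (n • z))
  /-- zero-cycles of degree `0` with Albanese image `0` are homologically trivial with Abel-Jacobi
  image `0` -/
  kernel : ∀ i X z, C.InKernel (Q.geo X) (Q.ext X z) → Q.AJKernel i X z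
  /-- the identity family -/
  one : ∀ W : Q.Sch, ∃ I : Q.FamQ W W, ∀ z, Q.push I z = z
  /-- a family of zero-cycles on `X` over a geometrically connected `W` induces by base change a
  family of zero-cycles on `geo X` over `geo W` -/
  base : ∀ {W X : Q.Sch} (E : Q.FamQ W X), Q.Conn W → ∃ F : C.Fam (Q.geo W) (Q.geo X),
    ∀ w : Q.Pts W, ∃ s : C.Pt (Q.geo W), Q.ext X (Q.cyc E w) = C.cyc F s
  /-- families respect rational equivalence -/
  rat : ∀ {W X : Q.Sch} (E : Q.FamQ W X) (z : Q.Z W), z ∈ Q.Rat W → Q.push E z ∈ Q.Rat X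
  /-- Weil restriction: let `F` be a family of zero-cycles on `geo X` over a simply connected surface
  `S` with `F(s) - F(s')` the restriction of the zero-cycle `z` on `X`. All this is defined over a
  number field `K`; let `R` be the Weil restriction of `S` from `K` to `ℚ`. It is smooth, projective
  and geometrically simply connected; `s` and `s'` are rational points of `R`, and the trace of `F`
  is a family `E` of zero-cycles on `X` over `R` with `E(s) - E(s') = n z` where `n` is the degree of
  `K` over the field of constants of `X`. -/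
  weil : ∀ (X : Q.Sch) (z : Q.Z X) (S : G.Var) (F : C.Fam S (Q.geo X)), G.dim S = 2 → G.SC S →
    C.Connects F (Q.ext X z) → ∃ (R : Q.Sch) (E : Q.FamQ R X) (r r' : Q.Pts R) (n : ℕ),
      Q.Conn R ∧ 2 ≤ G.dim (Q.geo R) ∧ G.SC (Q.geo R) ∧ 0 < n ∧ n • z = Q.cyc E r - Q.cyc E r'
  /-- Theorems of Bertini (with base points) and Lefschetz: finitely many rational points of a
  geometrically connected variety `R` of dimension at least `2` are rational points of a
  geometrically connected smooth surface in `R`, which is geometrically simply connected if `R` is;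
  families over `R` can be restricted to it. -/
  lefschetz : ∀ (R : Q.Sch), Q.Conn R → 2 ≤ G.dim (Q.geo R) → ∀ (N : ℕ) (r : Fin N → Q.Pts R),
    ∃ (T : Q.Sch) (t : Fin N → Q.Pts T), Q.Conn T ∧ G.dim (Q.geo T) = 2 ∧
      (G.SC (Q.geo R) → G.SC (Q.geo T)) ∧
      ∀ {X : Q.Sch} (E : Q.FamQ R X), ∃ E' : Q.FamQ T X, ∀ j, Q.cyc E' (t j) = Q.cyc E (r j)
  /-- the power `T^m` with its projections and the rational points with coordinates among two
  rational points `t, t'` of `T` -/
  power : ∀ (T : Q.Sch), Q.SCSurface T → ∀ (m : ℕ), 0 < m → ∀ t t' : Q.Pts T,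
    ∃ (R : Q.Sch) (pr : Fin m → Q.FamQ R T) (r : Set (Fin m) → Q.Pts R),
      Q.Conn R ∧ 2 ≤ G.dim (Q.geo R) ∧ G.SC (Q.geo R) ∧
      (∀ i A, i ∈ A → Q.cyc (pr i) (r A) = Q.pt T t') ∧
      (∀ i A, i ∉ A → Q.cyc (pr i) (r A) = Q.pt T t)

variable {Q}

/-- Differences of members of a family over a geometrically simply connected surface are in the
kernel. -/
theorem kernel_of_family (h : Facts C) (q : Q.Facts) (i : Q.Index) {T X : Q.Sch}
    (hT : Q.SCSurface T) (E : Q.FamQ T X) (t t' : Q.Pts T) :
    Q.AJKernel i X (Q.cyc E t - Q.cyc E t') := by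
  refine q.kernel i X _ ?_
  obtain ⟨hc, -, hs⟩ := hT
  obtain ⟨F, hF⟩ := q.base E hc
  obtain ⟨s, hs1⟩ := hF t
  obtain ⟨s', hs2⟩ := hF t'
  have h1 := h.basic.const F (h.basic.reg _ hs) s s'
  rw [map_sub, hs1, hs2]
  refine ⟨?_, ?_⟩
  · rw [degree_sub, h1.2.2, sub_self]
  · rw [albSum_sub, h1.2.1, sub_self]

/-- **The kernel of the Abel-Jacobi map on zero-cycles.** -/
theorem aj_kernel_iff (h : Facts C) (q : Q.Facts) (i : Q.Index) (X : Q.Sch)
    (hX : 1 ≤ G.dim (Q.geo X)) (z : Q.Z X) :
    (∃ n : ℕ, 0 < n ∧ Q.AJKernel i X (n • z)) ↔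
      ∃ (T : Q.Sch) (E : Q.FamQ T X) (t t' : Q.Pts T) (n : ℕ),
        Q.SCSurface T ∧ 0 < n ∧ n • z = Q.cyc E t - Q.cyc E t' := by
  constructor
  · rintro ⟨a, ha, hz⟩
    obtain ⟨b, hb, hk⟩ := q.albanese i X _ hz
    obtain ⟨S, F, hS, hSs, hcon⟩ := (inKernel_iff h (Q.geo X) hX _).1 hk
    obtain ⟨R, E, r, r', n, hR, hR2, hRs, hn, hrr⟩ := q.weil X _ S F hS hSs hcon
    obtain ⟨T, t, hT, hT2, hTs, hfam⟩ := q.lefschetz R hR hR2 2 ![r, r']
    obtain ⟨E', he⟩ := hfam E
    refine ⟨T, E', t 0, t 1, n * (b * a), ⟨hT, hT2, hTs hRs⟩, by positivity, ?_⟩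
    have h0 : Q.cyc E' (t 0) = Q.cyc E r := he 0
    have h1 : Q.cyc E' (t 1) = Q.cyc E r' := he 1
    rw [h0, h1, ← hrr, smul_smul, smul_smul, mul_assoc]
  · rintro ⟨T, E, t, t', n, hT, hn, he⟩
    exact ⟨n, hn, by rw [he]; exact kernel_of_family h q i hT E t t'⟩

/-- **Reduction to rational points of geometrically simply connected surfaces over `ℚ`.** -/
theorem aj_injective_iff (h : Facts C) (q : Q.Facts) (i : Q.Index) :
    (∀ X : Q.Sch, 1 ≤ G.dim (Q.geo X) → Q.Injective i X) ↔
      ∀ T : Q.Sch, Q.SCSurface T → Q.PointsEquivalent T := by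
  constructor
  · intro hX T hT t t'
    obtain ⟨I, hI⟩ := q.one T
    have h1 := kernel_of_family h q i hT I t t'
    unfold Arith.cyc at h1
    rw [hI, hI] at h1
    exact hX T (by have := hT.2.1; omega) _ h1
  · intro hT X hX z hz
    obtain ⟨T, E, t, t', n, hTs, hn, he⟩ := (aj_kernel_iff h q i X hX z).1
      ⟨1, one_pos, by rw [one_smul]; exact hz⟩
    obtain ⟨m, hm, hr⟩ := hT T hTs t t'
    refine ⟨m * n, by positivity, ?_⟩
    rw [mul_smul, he]
    have h1 := q.rat E _ hr
    rwa [map_nsmul, map_sub] at h1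

/-- **Zero-one law.** If the ranks are bounded, all rational points are equivalent up to torsion. -/
theorem rank_law (q : Q.Facts) :
    (∀ T : Q.Sch, Q.SCSurface T → Q.PointsEquivalent T) ↔
      ∃ m : ℕ, ∀ T : Q.Sch, Q.SCSurface T → Q.RankBelow m T := by
  classical
  constructor
  · intro h
    refine ⟨1, fun T hT t₀ t => ?_⟩
    obtain ⟨n, hn, hr⟩ := h T hT (t 0) t₀
    refine ⟨fun _ => (n : ℤ), fun h0 => ?_, ?_⟩
    · have h1 := congrFun h0 0
      simp only [Pi.zero_apply] at h1
      omega
    · rw [Fin.sum_univ_one, natCast_zsmul]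
      exact hr
  · rintro ⟨m, hm⟩ T hT t t'
    rcases Nat.eq_zero_or_pos m with h0 | h0
    · subst h0
      obtain ⟨n, hn, -⟩ := hm T hT t Fin.elim0
      exact absurd (Subsingleton.elim n 0) hn
    · obtain ⟨R, pr, r, hR, hR2, hRs, hin, hout⟩ := q.power T hT m h0 t' t
      obtain ⟨U, u, hU, hU2, hUs, hfam⟩ := q.lefschetz R hR hR2 (m + 1)
        (Fin.cons (r ∅) fun j => r {j})
      obtain ⟨n, hn, hrel⟩ := hm U ⟨hU, hU2, hUs hRs⟩ (u 0) fun j => u j.succ
      obtain ⟨i, hi⟩ := Function.ne_iff.1 hn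
      obtain ⟨E, hE⟩ := hfam (pr i)
      have h1 := q.rat E _ hrel
      rw [map_sum] at h1
      have h2 : ∀ j : Fin m, Q.push E (n j • (Q.pt U (u j.succ) - Q.pt U (u 0))) =
          if j = i then n i • (Q.pt T t - Q.pt T t') else 0 := by
        intro j
        have e0 : Q.push E (Q.pt U (u 0)) = Q.pt T t' := by
          have := hE 0
          rw [Fin.cons_zero] at this
          exact this.trans (hout i ∅ (Set.notMem_empty i))
        have e1 : Q.push E (Q.pt U (u j.succ)) = Q.cyc (pr i) (r {j}) := by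
          have := hE j.succ
          rw [Fin.cons_succ] at this
          exact this
        rw [map_zsmul, map_sub, e0, e1]
        split_ifs with hj
        · subst hj
          rw [hin j {j} (Set.mem_singleton j)]
        · rw [hout i {j} (by rw [Set.mem_singleton_iff]; exact fun h => hj h.symm), sub_self,
            smul_zero]
      rw [Finset.sum_congr rfl fun j _ => h2 j, Finset.sum_ite_eq' Finset.univ i] at h1
      simp only [Finset.mem_univ, if_true] at h1
      refine ⟨(n i).natAbs, Int.natAbs_pos.2 hi, ?_⟩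
      rcases Int.natAbs_eq (n i) with h3 | h3
      · rw [← natCast_zsmul, ← h3]
        exact h1
      · rw [← natCast_zsmul]
        have h4 : ((n i).natAbs : ℤ) = -(n i) := by omega
        rw [h4, neg_smul]
        exact neg_mem h1

/-- The kernels of all Abel-Jacobi maps considered agree up to torsion. -/
theorem aj_kernel_indep (q : Q.Facts) (i j : Q.Index) (X : Q.Sch) (z : Q.Z X)
    (hz : ∃ n : ℕ, 0 < n ∧ Q.AJKernel i X (n • z)) : ∃ n : ℕ, 0 < n ∧ Q.AJKernel j X (n • z) := by
  obtain ⟨a, ha, hz⟩ := hz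
  obtain ⟨b, hb, hk⟩ := q.albanese i X _ hz
  refine ⟨b * a, by positivity, ?_⟩
  rw [mul_smul]
  exact q.kernel j X _ hk

end Pool.Agent.Q226.SC
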