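import Pool.Agent.Q226.SC.ZQ

set_option autoImplicit false

/-!
# Zero-cycles over `ℚ̄` and rational points of simply connected surfaces over `ℚ`
-/

namespace Pool.Agent.Q226.SC

variable {G : Geo} {C : Cycles G} (Q : Arith C)

/-- Well-known facts on the comparison of zero-cycles over `ℚ` and over `ℚ̄`. -/
structure Arith.BarFacts : Prop where
  /-- a variety over `ℚ̄` and a zero-cycle on it are defined over a number field `K`; the variety
  over `K`, considered as a variety over `ℚ`, has the given one as a geometric component (the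
  elements of `Sch` are varieties over `ℚ` with a chosen geometric component, and all choices
  occur) -/
  descend : ∀ (Y : G.Var) (z : C.Pt Y →₀ ℤ), ∃ (X : Q.Sch) (x : Q.Z X),
    (⟨Q.geo X, Q.ext X x⟩ : Σ Y, (C.Pt Y →₀ ℤ)) = ⟨Y, z⟩
  /-- base change respects rational equivalence -/
  down : ∀ (X : Q.Sch) (x : Q.Z X), x ∈ Q.Rat X → Q.ext X x ∈ C.Rat (Q.geo X)
  /-- base change of zero-cycle classes from `ℚ` to `ℚ̄` is injective up to torsion (trace) -/
  up : ∀ (X : Q.Sch) (x : Q.Z X), Q.ext X x ∈ C.Rat (Q.geo X) → ∃ n : ℕ, 0 < n ∧ n • x ∈ Q.Rat X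
  /-- Roitman's theorem: the kernel of the Albanese map is torsion free -/
  roitman : ∀ (Y : G.Var) (z : C.Pt Y →₀ ℤ) (n : ℕ), 0 < n → C.InKernel Y z → n • z ∈ C.Rat Y →
    z ∈ C.Rat Y

variable {Q}

theorem inKernel_of_family (h : Facts C) (q : Q.Facts) {T X : Q.Sch}
    (hT : Q.SCSurface T) (E : Q.FamQ T X) (t t' : Q.Pts T) :
    C.InKernel (Q.geo X) (Q.ext X (Q.cyc E t - Q.cyc E t')) := by
  obtain ⟨hc, -, hs⟩ := hT
  obtain ⟨F, hF⟩ := q.base E hc
  obtain ⟨s, hs1⟩ := hF t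
  obtain ⟨s', hs2⟩ := hF t'
  have h1 := h.basic.const F (h.basic.reg _ hs) s s'
  rw [map_sub, hs1, hs2]
  refine ⟨?_, ?_⟩
  · rw [degree_sub, h1.2.2, sub_self]
  · rw [albSum_sub, h1.2.1, sub_self]

/-- Zero-cycles in the kernel come, up to multiples, from rational points. -/
theorem connectQ (h : Facts C) (q : Q.Facts) (X : Q.Sch) (hX : 1 ≤ G.dim (Q.geo X)) (z : Q.Z X)
    (hk : C.InKernel (Q.geo X) (Q.ext X z)) :
    ∃ (T : Q.Sch) (E : Q.FamQ T X) (t t' : Q.Pts T) (n : ℕ),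
      Q.SCSurface T ∧ 0 < n ∧ n • z = Q.cyc E t - Q.cyc E t' := by
  obtain ⟨S, F, hS, hSs, hcon⟩ := (inKernel_iff h (Q.geo X) hX _).1 hk
  obtain ⟨R, E, r, r', n, hR, hR2, hRs, hn, hrr⟩ := q.weil X _ S F hS hSs hcon
  obtain ⟨T, t, hT, hT2, hTs, hfam⟩ := q.lefschetz R hR hR2 2 ![r, r']
  obtain ⟨E', he⟩ := hfam E
  refine ⟨T, E', t 0, t 1, n, ⟨hT, hT2, hTs hRs⟩, hn, ?_⟩
  have h0 : Q.cyc E' (t 0) = Q.cyc E r := he 0
  have h1 : Q.cyc E' (t 1) = Q.cyc E r' := he 1
  rw [h0, h1, ← hrr]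

/-- **The kernel of the Albanese map over `ℚ̄`.** -/
theorem albanese_kernel_iff (h : Facts C) (q : Q.Facts) (X : Q.Sch)
    (hX : 1 ≤ G.dim (Q.geo X)) (z : Q.Z X) :
    (∃ n : ℕ, 0 < n ∧ C.InKernel (Q.geo X) (Q.ext X (n • z))) ↔
      ∃ (T : Q.Sch) (E : Q.FamQ T X) (t t' : Q.Pts T) (n : ℕ),
        Q.SCSurface T ∧ 0 < n ∧ n • z = Q.cyc E t - Q.cyc E t' := by
  constructor
  · rintro ⟨a, ha, hz⟩
    obtain ⟨T, E, t, t', n, hT, hn, he⟩ := connectQ h q X hX _ hz
    exact ⟨T, E, t, t', n * a, hT, by positivity, by rw [mul_smul, he]⟩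
  · rintro ⟨T, E, t, t', n, hT, hn, he⟩
    exact ⟨n, hn, by rw [he]; exact inKernel_of_family h q hT E t t'⟩

/-- **Beilinson's conjecture and rational points of simply connected surfaces over `ℚ`.** -/
theorem albanese_injective_iff (h : Facts C) (q : Q.Facts) (b : Q.BarFacts) :
    (∀ Y : G.Var, 1 ≤ G.dim Y → C.Injective Y) ↔
      ∀ T : Q.Sch, Q.SCSurface T → Q.PointsEquivalent T := by
  constructor
  · intro hY T hT t t'
    obtain ⟨I, hI⟩ := q.one T
    have h1 := inKernel_of_family h q hT I t t'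
    unfold Arith.cyc at h1
    rw [hI, hI] at h1
    exact b.up T _ (hY (Q.geo T) (by have := hT.2.1; omega) _ h1)
  · intro hT Y hY z hz
    obtain ⟨X, x, hx⟩ := b.descend Y z
    cases hx
    obtain ⟨T, E, t, t', n, hTs, hn, he⟩ := connectQ h q X hY x hz
    obtain ⟨m, hm, hr⟩ := hT T hTs t t'
    have h1 := q.rat E _ hr
    rw [map_nsmul, map_sub] at h1
    have h2 : (m * n) • x ∈ Q.Rat X := by
      rw [mul_smul, he]
      exact h1
    have h3 := b.down X _ h2
    rw [map_nsmul] at h3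
    exact b.roitman _ _ (m * n) (by positivity) hz h3

end Pool.Agent.Q226.SC
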