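import Pool.Agent.Q226.SC.ZQBar

set_option autoImplicit false

/-!
# The arithmetic Lefschetz isomorphism from divisors to zero-cycles
-/

namespace Pool.Agent.Q226.SC

/-- Homologically trivial divisor classes and zero-cycle classes with rational coefficients on
smooth projective varieties `X` over number fields `K` (the elements of `Sch`, seen over `ℚ`), and
powers of Lefschetz operators. -/
structure LefData {G : Geo} {C : Cycles G} (Q : Arith C) where
  /-- `X` is the generic fibre of a regular projective arithmetic variety over the ring of integers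
  of its field of constants -/
  Model : Q.Sch → Prop
  /-- the ample line bundles on `X` -/
  Pol : Q.Sch → Type
  /-- `Ch¹(X)⁰` -/
  Div : Q.Sch → Type
  /-- its group law -/
  grpD : ∀ X, AddCommGroup (Div X)
  /-- `Chⁿ(X)⁰`, `n = dim X` -/
  Ch : Q.Sch → Type
  /-- its group law -/
  grpC : ∀ X, AddCommGroup (Ch X)
  /-- the group of `K`-points of the Albanese variety of `X`, tensored with `ℚ` -/
  AlbQ : Q.Sch → Type
  /-- its group law -/
  grpA : ∀ X, AddCommGroup (AlbQ X)
  /-- the class of a homologically trivial zero-cycle -/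
  cls : ∀ X, Q.hom X → Ch X
  /-- the power `L^(n-1) : Ch¹(X)⁰ → Chⁿ(X)⁰` of the Lefschetz operator of an ample line bundle -/
  lef : ∀ X, Pol X → Div X →+ Ch X
  /-- the Albanese map `Chⁿ(X)⁰ → Alb_X(K) ⊗ ℚ` -/
  alb : ∀ X, Ch X →+ AlbQ X

attribute [instance] LefData.grpD LefData.grpC LefData.grpA

variable {G : Geo} {C : Cycles G}

/-- The zero-cycle `z` is rationally equivalent to `0` up to torsion. -/
def Arith.Torsion (Q : Arith C) (X : Q.Sch) (z : Q.Z X) : Prop :=
  ∃ n : ℕ, 0 < n ∧ n • z ∈ Q.Rat X

/-- A multiple of the zero-cycle `z` has degree `0` and Albanese image `0`. -/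
def Arith.AlbTorsion (Q : Arith C) (X : Q.Sch) (z : Q.Z X) : Prop :=
  ∃ n : ℕ, 0 < n ∧ C.InKernel (Q.geo X) (Q.ext X (n • z))

variable {Q : Arith C} (D : LefData Q)

/-- Zero-cycles of degree `0` (on the geometric component) are homologically trivial. -/
def HomTrivial (Q : Arith C) : Prop :=
  ∀ X (z : Q.Z X), degree (Q.ext X z) = 0 → z ∈ Q.hom X

/-- The kernel of the class map to the Chow group with rational coefficients. -/
def LefData.ZeroClasses : Prop := ∀ X (z : Q.hom X), D.cls X z = 0 ↔ Q.Torsion X z

/-- A multiple of every rational class is the class of a zero-cycle. -/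
def LefData.Multiples : Prop :=
  ∀ X (c : D.Ch X), ∃ (z : Q.hom X) (n : ℕ), 0 < n ∧ D.cls X z = n • c

/-- `Chⁿ(X)⁰` has rational coefficients, so it has no torsion. -/
def LefData.TorsionFree : Prop := ∀ X (c : D.Ch X) (n : ℕ), 0 < n → n • c = 0 → c = 0

/-- The kernel of the Albanese map, computed over `ℚ̄`. -/
def LefData.AlbaneseKernel : Prop :=
  ∀ X (z : Q.hom X), D.alb X (D.cls X z) = 0 ↔ Q.AlbTorsion X z

/-- The homomorphism from the Picard variety to the Albanese variety given by an ample line bundle is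
an isogeny. -/
def LefData.Isogeny : Prop :=
  ∀ X (L : D.Pol X), Function.Bijective fun x => D.alb X (D.lef X L x)

/-- The well-known facts on divisors and the Albanese map. -/
structure LefFacts : Prop where
  /-- smooth projective surfaces have regular projective models (resolution of singularities of
  arithmetic threefolds, Cossart-Piltant) -/
  model : ∀ X, G.dim (Q.geo X) = 2 → D.Model X
  /-- every `X` is projective -/
  ample : ∀ X, Nonempty (D.Pol X)
  hom : HomTrivial Q
  zero : D.ZeroClasses
  gen : D.Multiples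
  free : D.TorsionFree
  kernel : D.AlbaneseKernel
  isogeny : D.Isogeny

variable {D}

/-- The Lefschetz isomorphism and the kernel of the Albanese map. -/
theorem lef_bijective_iff (l : LefFacts D) (X : Q.Sch) (L : D.Pol X) :
    Function.Bijective (D.lef X L) ↔
      ∀ z : Q.hom X, Q.AlbTorsion X z → Q.Torsion X z := by
  constructor
  · rintro ⟨-, hs⟩ z hz
    obtain ⟨x, hx⟩ := hs (D.cls X z)
    have h1 : D.alb X (D.lef X L x) = D.alb X (D.lef X L 0) := by
      rw [hx, (l.kernel X z).2 hz, map_zero, map_zero]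
    have h2 : x = 0 := (l.isogeny X L).1 h1
    rw [h2, map_zero] at hx
    exact (l.zero X z).1 hx.symm
  · intro h
    constructor
    · intro x y hxy
      exact (l.isogeny X L).1 (congrArg (D.alb X) hxy)
    · intro c
      obtain ⟨x, hx⟩ := (l.isogeny X L).2 (D.alb X c)
      refine ⟨x, ?_⟩
      obtain ⟨z, n, hn, hz⟩ := l.gen X (c - D.lef X L x)
      have h1 : D.alb X (D.cls X z) = 0 := by
        have hx' : D.alb X (D.lef X L x) = D.alb X c := hx
        rw [hz, map_nsmul, map_sub, hx', sub_self, smul_zero]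
      have h2 := (l.zero X z).2 (h z ((l.kernel X z).1 h1))
      rw [h2] at hz
      exact (sub_eq_zero.1 (l.free X _ n hn hz.symm)).symm

theorem lef_of_points (h : Facts C) (q : Q.Facts) (l : LefFacts D)
    (hT : ∀ T : Q.Sch, Q.SCSurface T → Q.PointsEquivalent T) (X : Q.Sch)
    (hX : 1 ≤ G.dim (Q.geo X)) (L : D.Pol X) : Function.Bijective (D.lef X L) := by
  refine (lef_bijective_iff l X L).2 fun z hz => ?_
  obtain ⟨T, E, t, t', n, hTs, hn, he⟩ := (albanese_kernel_iff h q X hX z).1 hz
  obtain ⟨m, hm, hr⟩ := hT T hTs t t'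
  refine ⟨m * n, by positivity, ?_⟩
  rw [mul_smul, he]
  have h1 := q.rat E _ hr
  rwa [map_nsmul, map_sub] at h1

theorem points_of_lef (h : Facts C) (q : Q.Facts) (l : LefFacts D) (T : Q.Sch)
    (hT : Q.SCSurface T) (hL : ∀ L : D.Pol T, Function.Bijective (D.lef T L)) :
    Q.PointsEquivalent T := by
  intro t t'
  obtain ⟨L⟩ := l.ample T
  obtain ⟨I, hI⟩ := q.one T
  have h1 := inKernel_of_family h q hT I t t'
  unfold Arith.cyc at h1
  rw [hI, hI] at h1
  have h2 := l.hom T _ h1.1
  exact (lef_bijective_iff l T L).1 (hL L) ⟨_, h2⟩ ⟨1, one_pos, by rw [one_smul]; exact h1⟩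

/-- **The arithmetic Lefschetz isomorphism in codimension one and rational points.** -/
theorem lef_iff (h : Facts C) (q : Q.Facts) (l : LefFacts D) :
    (∀ X : Q.Sch, 1 ≤ G.dim (Q.geo X) → D.Model X → ∀ L : D.Pol X,
      Function.Bijective (D.lef X L)) ↔ ∀ T : Q.Sch, Q.SCSurface T → Q.PointsEquivalent T :=
  ⟨fun hX T hT => points_of_lef h q l T hT
    (hX T (by have := hT.2.1; omega) (l.model T hT.2.1)),
    fun hT X hX _ L => lef_of_points h q l hT X hX L⟩

theorem lef_surface_iff (h : Facts C) (q : Q.Facts) (l : LefFacts D) :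
    (∀ T : Q.Sch, Q.SCSurface T → ∀ L : D.Pol T, Function.Bijective (D.lef T L)) ↔
      ∀ T : Q.Sch, Q.SCSurface T → Q.PointsEquivalent T :=
  ⟨fun hX T hT => points_of_lef h q l T hT (hX T hT),
    fun hT X hX L => lef_of_points h q l hT X (by have := hX.2.1; omega) L⟩

end Pool.Agent.Q226.SC
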